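import Pool.Agent.N3L.Four

/-!
# No three in line, except on the lines of slope `1` and `-1`

For infinitely many `N` (all `N = 2p + 1` with a prime `p = 1` modulo `24`) there are exactly `2N` points of the
`N × N` grid such that every line contains at most four of them, and every line with three of them has
slope `1` or `-1`.

The set consists of all points of a hyperbola `x y = c` modulo `p`, `c` a quadratic non-residue, and of
the six points `(0,0)`, `(2p,2p)`, `(0,p)`, `(2p,p)`, `(p,0)`, `(p,2p)`.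
-/

set_option autoImplicit false

namespace Pool.Agent.Results.MP_10249b_co.AllButDiagonals

/-- the grid `{0, …, N-1}²` -/
noncomputable def grid (N : ℕ) : Finset (ℤ × ℤ) := Finset.Ico 0 (N : ℤ) ×ˢ Finset.Ico 0 (N : ℤ)

/-- the points `P`, `Q`, `R` lie on a line -/
def Col (P Q R : ℤ × ℤ) : Prop := (Q.1 - P.1) * (R.2 - P.2) = (Q.2 - P.2) * (R.1 - P.1)

/-- **For infinitely many `N` there are `2N` points of the grid, at most four of them on every line, with no
three in line, except on lines of slope `1` and `-1`.** -/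
theorem result : {N : ℕ | ∃ S ⊆ grid N, S.card = 2 * N ∧
    (∀ P ∈ S, ∀ Q ∈ S, P ≠ Q → ∀ F ⊆ S, (∀ R ∈ F, Col P Q R) → F.card ≤ 4) ∧
    ∀ P ∈ S, ∀ Q ∈ S, ∀ R ∈ S, P ≠ Q → P ≠ R → Q ≠ R → Col P Q R →
      Q.2 - P.2 = Q.1 - P.1 ∨ Q.2 - P.2 = -(Q.1 - P.1)}.Infinite := by
  rw [Set.infinite_iff_exists_gt]
  intro M
  obtain ⟨p, hp, hMp, hmod⟩ := Nat.exists_prime_gt_modEq_one (k := 24) M (by norm_num)
  have h24 : p % 24 = 1 := hmod
  obtain ⟨S, h1, h2, h3, h4⟩ := Pool.Agent.N3L.diagonals_four p hp h24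
  exact ⟨2 * p + 1, ⟨S, h1, h2, h4, h3⟩, by omega⟩

end Pool.Agent.Results.MP_10249b_co.AllButDiagonals
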