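import Pool.Agent.Lib_helper31.N3L.Conic

/-!
# Sets on a conic modulo a prime have at most `9N/5` points

Let `p ≥ 5` be a prime and `N ≥ p`. If `S` is a subset of the `N × N` grid with no three in line
whose points satisfy `Q(x, y) ≡ 0 mod p`, where `Q` is a quadratic polynomial over `ZMod p` whose
zero set contains no line, then `p² |S|³ ≤ (p + 1)² (4 N³ + p² |S|)`; in particular
`|S| ≤ 9N/5` if `N ≥ 730`.
-/

set_option autoImplicit false

namespace Pool.Agent.Results.MP_10249b_co.ConicBound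

open Pool.Agent.Lib_helper31.N3L

/-- The bound `3 (p + 1) |S| ≤ 4 (p + 3) N` if the rows met by `S` lie in at most `(p + 3) / 2`
residue classes. -/
theorem row_type {N p T m D : ℕ} (hp : 5 ≤ p) (hpN : p ≤ N) (hm : m ≤ 2 * T)
    (h1 : T + N / p * (p - D) ≤ N) (h2 : T ≤ (N / p + 1) * D) (hD : 2 * D ≤ p + 3) :
    3 * (p + 1) * m ≤ 4 * (p + 3) * N := by
  have hp0 : 0 < p := by omega
  have hq : 1 ≤ N / p := (Nat.one_le_div_iff hp0).mpr hpN
  have hN : N = p * (N / p) + N % p := (Nat.div_add_mod N p).symm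
  set q := N / p with hqdef
  set r := N % p with hrdef
  have hDp : D ≤ p := by omega
  obtain ⟨k, hk⟩ : ∃ k, p = D + k := ⟨p - D, by omega⟩
  have hpk : p - D = k := by omega
  rw [hpk] at h1
  -- over the integers
  have h1' : (T : ℤ) + q * k ≤ p * q + r := by
    have : T + q * k ≤ p * q + r := by rw [← hN]; exact h1
    exact_mod_cast this
  have h2' : (T : ℤ) ≤ (q + 1) * D := by exact_mod_cast h2
  have hk' : (p : ℤ) = D + k := by exact_mod_cast hk
  have hD' : 2 * (D : ℤ) ≤ p + 3 := by exact_mod_cast hD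
  have hq' : (1 : ℤ) ≤ q := by exact_mod_cast hq
  have hp' : (5 : ℤ) ≤ p := by exact_mod_cast hp
  have hm' : (m : ℤ) ≤ 2 * T := by exact_mod_cast hm
  have hr0 : (0 : ℤ) ≤ r := Int.natCast_nonneg r
  have h3 : (T : ℤ) ≤ q * D + r := by
    have : (p : ℤ) * q = D * q + k * q := by rw [hk']; ring
    nlinarith
  have goal' : 3 * ((p : ℤ) + 1) * m ≤ 4 * (p + 3) * (p * q + r) := by
    -- `3 (p + 1) T = 2 (p + 3) T + (p - 3) T`
    have e1 : 2 * ((p : ℤ) + 3) * T ≤ 2 * (p + 3) * (q * D + r) :=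
      mul_le_mul_of_nonneg_left h3 (by linarith)
    have e2 : ((p : ℤ) - 3) * T ≤ (p - 3) * ((q + 1) * D) :=
      mul_le_mul_of_nonneg_left h2' (by linarith)
    have e3 : 2 * ((p : ℤ) + 3) * (q * D) + (p - 3) * ((q + 1) * D) ≤ 2 * (p + 3) * (p * q) := by
      -- `D (3 (p + 1) q + (p - 3)) ≤ 2 (p + 3) p q`
      have e4 : 2 * (D : ℤ) * (3 * (p + 1) * q + (p - 3)) ≤ (p + 3) * (3 * (p + 1) * q + (p - 3)) := by
        apply mul_le_mul_of_nonneg_right hD'
        nlinarith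
      have e5 : ((p : ℤ) + 3) * (3 * (p + 1) * q + (p - 3)) ≤ (p + 3) * (4 * p * q) := by
        apply mul_le_mul_of_nonneg_left _ (by linarith)
        nlinarith
      nlinarith
    have e6 : 3 * ((p : ℤ) + 1) * m ≤ 3 * (p + 1) * (2 * T) :=
      mul_le_mul_of_nonneg_left hm' (by linarith)
    nlinarith
  have : (3 * (p + 1) * m : ℤ) ≤ 4 * (p + 3) * (N : ℤ) := by
    rw [hN]; push_cast; exact goal'
  exact_mod_cast this

/-- From the linear bound of `row_type` to the cubic inequality. -/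
theorem cubic_of_linear {p m N : ℝ} (hp : 5 ≤ p) (hm : 0 ≤ m) (hN : 0 ≤ N)
    (h : 3 * (p + 1) * m ≤ 4 * (p + 3) * N) :
    p ^ 2 * m ^ 3 ≤ (p + 1) ^ 2 * (4 * N ^ 3 + p ^ 2 * m) := by
  have h1 : (3 * (p + 1) * m) ^ 3 ≤ (4 * (p + 3) * N) ^ 3 :=
    pow_le_pow_left₀ (by positivity) h 3
  have h2 : 16 * (p + 3) ^ 3 * p ^ 2 ≤ 27 * (p + 1) ^ 5 := by
    obtain ⟨t, ht, rfl⟩ : ∃ t : ℝ, 0 ≤ t ∧ p = t + 5 := ⟨p - 5, by linarith, by ring⟩
    have : 27 * (t + 5 + 1) ^ 5 - 16 * (t + 5 + 3) ^ 3 * (t + 5) ^ 2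
        = 11 * t ^ 5 + 266 * t ^ 4 + 2408 * t ^ 3 + 9808 * t ^ 2 + 16240 * t + 5152 := by ring
    have h3 : 0 ≤ 11 * t ^ 5 + 266 * t ^ 4 + 2408 * t ^ 3 + 9808 * t ^ 2 + 16240 * t + 5152 := by
      positivity
    linarith
  have h4 : 27 * (p + 1) ^ 3 * (p ^ 2 * m ^ 3) ≤ 27 * (p + 1) ^ 3 * ((p + 1) ^ 2 * (4 * N ^ 3)) := by
    calc 27 * (p + 1) ^ 3 * (p ^ 2 * m ^ 3) = p ^ 2 * (3 * (p + 1) * m) ^ 3 := by ring
      _ ≤ p ^ 2 * (4 * (p + 3) * N) ^ 3 := mul_le_mul_of_nonneg_left h1 (sq_nonneg p)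
      _ = 4 * N ^ 3 * (16 * (p + 3) ^ 3 * p ^ 2) := by ring
      _ ≤ 4 * N ^ 3 * (27 * (p + 1) ^ 5) := mul_le_mul_of_nonneg_left h2 (by positivity)
      _ = _ := by ring
  have h5 : p ^ 2 * m ^ 3 ≤ (p + 1) ^ 2 * (4 * N ^ 3) := le_of_mul_le_mul_left h4 (by positivity)
  have h6 : 0 ≤ (p + 1) ^ 2 * (p ^ 2 * m) := by positivity
  nlinarith

/-- The cubic inequality gives `|S| ≤ 9N/5` for `N ≥ 730`. -/
theorem nine_fifths {p N : ℕ} {m : ℝ} (hp : 5 ≤ p) (hp6 : p ≠ 6) (hpN : p ≤ N) (hN : 730 ≤ N)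
    (h : (p : ℝ) ^ 2 * m ^ 3 ≤ ((p : ℝ) + 1) ^ 2 * (4 * (N : ℝ) ^ 3 + (p : ℝ) ^ 2 * m)) :
    5 * m ≤ 9 * N := by
  by_contra hcon
  push Not at hcon
  have hNr : (730 : ℝ) ≤ N := by exact_mod_cast hN
  have hpr : (5 : ℝ) ≤ p := by exact_mod_cast hp
  have hpNr : (p : ℝ) ≤ N := by exact_mod_cast hpN
  set P : ℝ := (p : ℝ) with hP
  set M : ℝ := (N : ℝ) with hM
  have hm0 : 9 * M / 5 ≤ m := by linarith
  have hmM : P + 1 ≤ 9 * M / 5 := by linarith
  -- key inequality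
  have hkey : 9 / 5 * P ^ 2 * (P + 1) ^ 2 < M ^ 2 * (729 / 125 * P ^ 2 - 4 * (P + 1) ^ 2) := by
    rcases Nat.lt_or_ge p 7 with h7 | h7
    · have hp5 : p = 5 := by omega
      have : P = 5 := by rw [hP, hp5]; norm_num
      rw [this]
      nlinarith
    · have h7r : (7 : ℝ) ≤ P := by rw [hP]; exact_mod_cast h7
      rcases le_or_gt (2 * p) N with h2 | h2
      · have h2r : 2 * P ≤ M := by rw [hP, hM]; exact_mod_cast h2
        have hsq : 4 * P ^ 2 ≤ M ^ 2 := by nlinarith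
        have e1 : 9 / 5 * (P + 1) ^ 2 < 4 * (729 / 125 * P ^ 2 - 4 * (P + 1) ^ 2) := by nlinarith
        have e2 : 0 < 729 / 125 * P ^ 2 - 4 * (P + 1) ^ 2 := by nlinarith
        have e3 : 0 < P ^ 2 := by positivity
        calc 9 / 5 * P ^ 2 * (P + 1) ^ 2 = P ^ 2 * (9 / 5 * (P + 1) ^ 2) := by ring
          _ < P ^ 2 * (4 * (729 / 125 * P ^ 2 - 4 * (P + 1) ^ 2)) :=
              mul_lt_mul_of_pos_left e1 e3
          _ = 4 * P ^ 2 * (729 / 125 * P ^ 2 - 4 * (P + 1) ^ 2) := by ring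
          _ ≤ M ^ 2 * (729 / 125 * P ^ 2 - 4 * (P + 1) ^ 2) :=
              mul_le_mul_of_nonneg_right hsq e2.le
      · have h366 : 366 ≤ p := by omega
        have h3r : (366 : ℝ) ≤ P := by rw [hP]; exact_mod_cast h366
        have hsq : P ^ 2 ≤ M ^ 2 := by nlinarith
        have e1 : 9 / 5 * (P + 1) ^ 2 < 729 / 125 * P ^ 2 - 4 * (P + 1) ^ 2 := by nlinarith
        have e2 : 0 < 729 / 125 * P ^ 2 - 4 * (P + 1) ^ 2 := by nlinarith
        have e3 : 0 < P ^ 2 := by positivity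
        calc 9 / 5 * P ^ 2 * (P + 1) ^ 2 = P ^ 2 * (9 / 5 * (P + 1) ^ 2) := by ring
          _ < P ^ 2 * (729 / 125 * P ^ 2 - 4 * (P + 1) ^ 2) := mul_lt_mul_of_pos_left e1 e3
          _ ≤ M ^ 2 * (729 / 125 * P ^ 2 - 4 * (P + 1) ^ 2) :=
              mul_le_mul_of_nonneg_right hsq e2.le
  have hMpos : 0 < M := by linarith
  have hP1 : 0 ≤ P + 1 := by linarith
  have hmsq : (9 * M / 5) ^ 2 - (P + 1) ^ 2 ≤ m ^ 2 - (P + 1) ^ 2 := by
    have : (9 * M / 5) ^ 2 ≤ m ^ 2 := pow_le_pow_left₀ (by positivity) hm0 2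
    linarith
  have hnn : 0 ≤ (9 * M / 5) ^ 2 - (P + 1) ^ 2 := by
    have : (P + 1) ^ 2 ≤ (9 * M / 5) ^ 2 := pow_le_pow_left₀ hP1 hmM 2
    linarith
  have h1 : (9 * M / 5) * ((9 * M / 5) ^ 2 - (P + 1) ^ 2) ≤ m * (m ^ 2 - (P + 1) ^ 2) :=
    mul_le_mul hm0 hmsq hnn (by linarith)
  have h2 : P ^ 2 * ((9 * M / 5) * ((9 * M / 5) ^ 2 - (P + 1) ^ 2))
      ≤ P ^ 2 * (m * (m ^ 2 - (P + 1) ^ 2)) := mul_le_mul_of_nonneg_left h1 (sq_nonneg P)
  have h3 : P ^ 2 * (m * (m ^ 2 - (P + 1) ^ 2)) ≤ 4 * (P + 1) ^ 2 * M ^ 3 := by nlinarith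
  have h4 : P ^ 2 * ((9 * M / 5) * ((9 * M / 5) ^ 2 - (P + 1) ^ 2)) ≤ 4 * (P + 1) ^ 2 * M ^ 3 :=
    h2.trans h3
  have h5 : M * (M ^ 2 * (729 / 125 * P ^ 2 - 4 * (P + 1) ^ 2)) ≤ M * (9 / 5 * P ^ 2 * (P + 1) ^ 2) := by
    nlinarith
  have h6 := le_of_mul_le_mul_left h5 hMpos
  linarith

/-- Let `p ≥ 5` be a prime, `N ≥ p`, and let `Q` be a quadratic polynomial over `ZMod p` whose
zero set contains no line. If `S` is a subset of the `N × N` grid with no three in line and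
`Q(x, y) = 0` in `ZMod p` for all `(x, y) ∈ S`, then
`p² |S|³ ≤ (p + 1)² (4 N³ + p² |S|)`, and `|S| ≤ 9N/5` if `N ≥ 730`. -/
theorem result (N p : ℕ) (hp : p.Prime) (h5 : 5 ≤ p) (hpN : p ≤ N) (a b c d e f : ZMod p)
    (hQ : NoLine a b c d e f) (S : Finset (ℕ × ℕ))
    (hS : S ⊆ Finset.Icc 1 N ×ˢ Finset.Icc 1 N) (h3 : NoThree S)
    (hz : ∀ s ∈ S, quad a b c d e f (s.1 : ZMod p) (s.2 : ZMod p) = 0) :
    p ^ 2 * S.card ^ 3 ≤ (p + 1) ^ 2 * (4 * N ^ 3 + p ^ 2 * S.card) ∧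
      (730 ≤ N → 5 * S.card ≤ 9 * N) := by
  classical
  have : Fact p.Prime := ⟨hp⟩
  have hp2 : p ≠ 2 := by omega
  have hodd : p % 2 = 1 := by
    rcases hp.eq_two_or_odd with h | h
    · omega
    · exact h
  have hmem : ∀ s ∈ S, ((s.1 : ZMod p), (s.2 : ZMod p)) ∈ zset a b c d e f := fun s hs =>
    mem_zset.mpr (hz s hs)
  have hpr : (5 : ℝ) ≤ p := by exact_mod_cast h5
  have hm0 : (0 : ℝ) ≤ S.card := Nat.cast_nonneg _
  have hN0 : (0 : ℝ) ≤ N := Nat.cast_nonneg _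
  have hmain : (p : ℝ) ^ 2 * (S.card : ℝ) ^ 3
      ≤ ((p : ℝ) + 1) ^ 2 * (4 * (N : ℝ) ^ 3 + (p : ℝ) ^ 2 * S.card) := by
    by_cases ha : a = 0
    · by_cases hc : c = 0
      · subst ha hc
        by_cases hb : b = 0
        · -- no line: the set is empty
          subst hb
          have hS0 : S = ∅ := by
            by_contra hne
            obtain ⟨s, hs⟩ := Finset.nonempty_iff_ne_empty.mpr hne
            have hs0 := hz s hs
            rw [quad_hyper] at hs0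
            by_cases hde : d = 0 ∧ e = 0
            · obtain ⟨t, ht⟩ := hQ (s.1 : ZMod p) (s.2 : ZMod p) 1 0 (Or.inl one_ne_zero)
              apply ht
              rw [quad_hyper]
              rw [hde.1, hde.2] at hs0 ⊢
              linear_combination hs0
            · have hde' : -e ≠ 0 ∨ d ≠ 0 := by
                by_contra h0
                push Not at h0
                exact hde ⟨h0.2, neg_eq_zero.mp h0.1⟩
              obtain ⟨t, ht⟩ := hQ (s.1 : ZMod p) (s.2 : ZMod p) (-e) d hde'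
              apply ht
              rw [quad_hyper]
              linear_combination hs0
          rw [hS0]
          rw [Finset.card_empty, Nat.cast_zero, zero_pow (by norm_num), mul_zero]
          positivity
        · -- hyperbola
          have hh := hyper hQ hb
          have := main_ineq hS h3 ((zset 0 b 0 d e f).image fun P => P.1 - P.2)
            ((zset 0 b 0 d e f).image fun P => P.1 + P.2)
            (fun s hs => Finset.mem_image.mpr ⟨_, hmem s hs, rfl⟩)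
            (fun s hs => Finset.mem_image.mpr ⟨_, hmem s hs, rfl⟩) (((p : ℝ) + 1) / 2)
            (by
              have : (2 * ((zset 0 b 0 d e f).image fun P => P.1 - P.2).card : ℝ) ≤ p + 1 := by
                exact_mod_cast hh.1
              linarith)
            (by
              have : (2 * ((zset 0 b 0 d e f).image fun P => P.1 + P.2).card : ℝ) ≤ p + 1 := by
                exact_mod_cast hh.2
              linarith)
          have h2 : (2 * (((p : ℝ) + 1) / 2)) ^ 2 = ((p : ℝ) + 1) ^ 2 := by ring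
          rw [h2] at this
          refine this.trans ?_
          apply mul_le_mul_of_nonneg_left _ (sq_nonneg _)
          nlinarith
      · -- columns
        have hcols := cols_le hp2 hQ hc
        set R := (zset a b c d e f).image fun P => P.1 with hR
        have hcount := count_residues_le N R
        have hSle := card_le_of_cols h3 ((Finset.Icc 1 N).filter fun y : ℕ => (y : ZMod p) ∈ R)
          (fun s hs => Finset.mem_filter.mpr ⟨(Finset.mem_product.mp (hS hs)).1,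
            Finset.mem_image.mpr ⟨_, hmem s hs, rfl⟩⟩)
        have := row_type h5 hpN hSle hcount.1 hcount.2 (by omega)
        exact cubic_of_linear hpr hm0 hN0 (by exact_mod_cast this)
    · -- rows
      have hrows := rows_le hp2 hQ ha
      set R := (zset a b c d e f).image fun P => P.2 with hR
      have hcount := count_residues_le N R
      have hSle := card_le_of_rows h3 ((Finset.Icc 1 N).filter fun y : ℕ => (y : ZMod p) ∈ R)
        (fun s hs => Finset.mem_filter.mpr ⟨(Finset.mem_product.mp (hS hs)).2,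
          Finset.mem_image.mpr ⟨_, hmem s hs, rfl⟩⟩)
      have := row_type h5 hpN hSle hcount.1 hcount.2 (by omega)
      exact cubic_of_linear hpr hm0 hN0 (by exact_mod_cast this)
  constructor
  · exact_mod_cast hmain
  · intro hN
    have := nine_fifths (m := (S.card : ℝ)) h5 (by omega) hpN hN hmain
    exact_mod_cast this

end Pool.Agent.Results.MP_10249b_co.ConicBound
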