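import Pool.Agent.Lib_helper31.N3L.Conic

/-!
# Lifts of conics modulo `p` to the `2p × 2p` grid: the maximum is `3(p - 1)`

Let `p ≥ 11` be a prime. The largest size of a set of points of the `2p × 2p` grid with no three in
line which lies on a conic modulo `p` (the zero set of a quadratic polynomial over `ZMod p` which
contains no line) is `3 (p - 1)`.
-/

set_option autoImplicit false

namespace Pool.Agent.Results.MP_10249b_co.ConicExact

open Pool.Agent.Lib_helper31.N3L

variable {p : ℕ} [Fact p.Prime]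

/-- The point modulo `p`. -/
def res (p : ℕ) (s : ℕ × ℕ) : ZMod p × ZMod p := ((s.1 : ZMod p), (s.2 : ZMod p))

/-- The representative in `{1, …, p}`. -/
def rp (z : ZMod p) : ℕ := (z - 1).val + 1

theorem rp_bounds (z : ZMod p) : 1 ≤ rp z ∧ rp z ≤ p := by
  have h : NeZero p := ⟨(Fact.out : p.Prime).ne_zero⟩
  have := ZMod.val_lt (z - 1)
  unfold rp
  omega

theorem rp_cast (z : ZMod p) : ((rp z : ℕ) : ZMod p) = z := by
  have h : NeZero p := ⟨(Fact.out : p.Prime).ne_zero⟩
  unfold rp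
  rw [Nat.cast_add, ZMod.natCast_zmod_val, Nat.cast_one]
  ring

/-- An integer which is `0` modulo `p`. -/
theorem dvd_of_cast {k : ℤ} (h : (k : ZMod p) = 0) : (p : ℤ) ∣ k :=
  (ZMod.intCast_zmod_eq_zero_iff_dvd k p).1 h

theorem rp_cases {z : ZMod p} {n : ℕ} (h1 : 1 ≤ n) (h2 : n ≤ 2 * p) (h : (n : ZMod p) = z) :
    n = rp z ∨ n = rp z + p := by
  obtain ⟨a1, a2⟩ := rp_bounds z
  have hd : (p : ℤ) ∣ (n : ℤ) - (rp z : ℤ) := by
    apply dvd_of_cast
    push_cast
    rw [h, rp_cast, sub_self]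
  obtain ⟨k, hk⟩ := hd
  have hp : 0 < p := (Fact.out : p.Prime).pos
  have b1 : (n : ℤ) ≤ 2 * p := by exact_mod_cast h2
  have b2 : (1 : ℤ) ≤ n := by exact_mod_cast h1
  have b3 : (1 : ℤ) ≤ rp z := by exact_mod_cast a1
  have b4 : (rp z : ℤ) ≤ p := by exact_mod_cast a2
  have b5 : (0 : ℤ) < p := by exact_mod_cast hp
  have k1 : k < 2 := by nlinarith
  have k2 : -1 < k := by nlinarith
  have k3 : k = 0 ∨ k = 1 := by omega
  rcases k3 with rfl | rfl
  · left
    have : (n : ℤ) = rp z := by linarith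
    exact_mod_cast this
  · right
    have : (n : ℤ) = rp z + p := by linarith
    exact_mod_cast this

/-- At most six of the eight points survive. -/
theorem pair6 {S : Finset (ℕ × ℕ)} (h3 : NoThree S) (q : ℤ) (l m : ℤ) (hlm : l ≠ 0 ∨ m ≠ 0)
    {α β₁ β₂ γ α' β₁' β₂' γ' : ℕ × ℕ} {t t' : ℤ}
    (a1 : l * (α.1 : ℤ) + m * (α.2 : ℤ) = t) (a2 : l * (β₁.1 : ℤ) + m * (β₁.2 : ℤ) = t + q)
    (a3 : l * (β₂.1 : ℤ) + m * (β₂.2 : ℤ) = t + q) (a4 : l * (γ.1 : ℤ) + m * (γ.2 : ℤ) = t + 2 * q)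
    (b1 : l * (α'.1 : ℤ) + m * (α'.2 : ℤ) = t') (b2 : l * (β₁'.1 : ℤ) + m * (β₁'.2 : ℤ) = t' + q)
    (b3 : l * (β₂'.1 : ℤ) + m * (β₂'.2 : ℤ) = t' + q)
    (b4 : l * (γ'.1 : ℤ) + m * (γ'.2 : ℤ) = t' + 2 * q)
    (ht : t' = t ∨ t' = t + q ∨ t' = t - q) (F : Finset (ℕ × ℕ)) (hFS : F ⊆ S)
    (hF : ∀ s ∈ F, s = α ∨ s = β₁ ∨ s = β₂ ∨ s = γ ∨ s = α' ∨ s = β₁' ∨ s = β₂' ∨ s = γ') :
    F.card ≤ 6 := by
  classical
  set G : ℤ → Finset (ℕ × ℕ) := fun c => S.filter fun s => l * (s.1 : ℤ) + m * (s.2 : ℤ) = c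
    with hG
  have hG2 : ∀ c, (G c).card ≤ 2 := fun c => fiber_le_two h3 l m c hlm
  have hmem : ∀ s ∈ F, ∀ c, l * (s.1 : ℤ) + m * (s.2 : ℤ) = c → s ∈ G c := fun s hs c hc =>
    Finset.mem_filter.2 ⟨hFS hs, hc⟩
  rcases ht with ht | ht | ht
  · have hsub : F ⊆ G (t + q) ∪ {α, γ, α', γ'} := by
      intro s hs
      rcases hF s hs with h | h | h | h | h | h | h | h
      · exact Finset.mem_union_right _ (by rw [h]; simp)
      · exact Finset.mem_union_left _ (hmem s hs _ (by rw [h]; linarith))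
      · exact Finset.mem_union_left _ (hmem s hs _ (by rw [h]; linarith))
      · exact Finset.mem_union_right _ (by rw [h]; simp)
      · exact Finset.mem_union_right _ (by rw [h]; simp)
      · exact Finset.mem_union_left _ (hmem s hs _ (by rw [h]; linarith))
      · exact Finset.mem_union_left _ (hmem s hs _ (by rw [h]; linarith))
      · exact Finset.mem_union_right _ (by rw [h]; simp)
    calc F.card ≤ (G (t + q) ∪ {α, γ, α', γ'}).card := Finset.card_le_card hsub
      _ ≤ (G (t + q)).card + ({α, γ, α', γ'} : Finset (ℕ × ℕ)).card := Finset.card_union_le _ _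
      _ ≤ 2 + 4 := Nat.add_le_add (hG2 _) Finset.card_le_four
      _ = 6 := rfl
  · have hsub : F ⊆ (G (t + q) ∪ G (t + 2 * q)) ∪ {α, γ'} := by
      intro s hs
      rcases hF s hs with h | h | h | h | h | h | h | h
      · exact Finset.mem_union_right _ (by rw [h]; simp)
      · exact Finset.mem_union_left _ (Finset.mem_union_left _ (hmem s hs _ (by rw [h]; linarith)))
      · exact Finset.mem_union_left _ (Finset.mem_union_left _ (hmem s hs _ (by rw [h]; linarith)))
      · exact Finset.mem_union_left _ (Finset.mem_union_right _ (hmem s hs _ (by rw [h]; linarith)))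
      · exact Finset.mem_union_left _ (Finset.mem_union_left _ (hmem s hs _ (by rw [h]; linarith)))
      · exact Finset.mem_union_left _ (Finset.mem_union_right _ (hmem s hs _ (by rw [h]; linarith)))
      · exact Finset.mem_union_left _ (Finset.mem_union_right _ (hmem s hs _ (by rw [h]; linarith)))
      · exact Finset.mem_union_right _ (by rw [h]; simp)
    calc F.card ≤ ((G (t + q) ∪ G (t + 2 * q)) ∪ {α, γ'}).card := Finset.card_le_card hsub
      _ ≤ (G (t + q) ∪ G (t + 2 * q)).card + ({α, γ'} : Finset (ℕ × ℕ)).card :=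
        Finset.card_union_le _ _
      _ ≤ ((G (t + q)).card + (G (t + 2 * q)).card) + 2 :=
        Nat.add_le_add (Finset.card_union_le _ _) Finset.card_le_two
      _ ≤ (2 + 2) + 2 := Nat.add_le_add_right (Nat.add_le_add (hG2 _) (hG2 _)) _
      _ = 6 := rfl
  · have hsub : F ⊆ (G t ∪ G (t + q)) ∪ {α', γ} := by
      intro s hs
      rcases hF s hs with h | h | h | h | h | h | h | h
      · exact Finset.mem_union_left _ (Finset.mem_union_left _ (hmem s hs _ (by rw [h]; linarith)))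
      · exact Finset.mem_union_left _ (Finset.mem_union_right _ (hmem s hs _ (by rw [h]; linarith)))
      · exact Finset.mem_union_left _ (Finset.mem_union_right _ (hmem s hs _ (by rw [h]; linarith)))
      · exact Finset.mem_union_right _ (by rw [h]; simp)
      · exact Finset.mem_union_right _ (by rw [h]; simp)
      · exact Finset.mem_union_left _ (Finset.mem_union_left _ (hmem s hs _ (by rw [h]; linarith)))
      · exact Finset.mem_union_left _ (Finset.mem_union_left _ (hmem s hs _ (by rw [h]; linarith)))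
      · exact Finset.mem_union_left _ (Finset.mem_union_right _ (hmem s hs _ (by rw [h]; linarith)))
    calc F.card ≤ ((G t ∪ G (t + q)) ∪ {α', γ}).card := Finset.card_le_card hsub
      _ ≤ (G t ∪ G (t + q)).card + ({α', γ} : Finset (ℕ × ℕ)).card := Finset.card_union_le _ _
      _ ≤ ((G t).card + (G (t + q)).card) + 2 :=
        Nat.add_le_add (Finset.card_union_le _ _) Finset.card_le_two
      _ ≤ (2 + 2) + 2 := Nat.add_le_add_right (Nat.add_le_add (hG2 _) (hG2 _)) _
      _ = 6 := rfl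

/-- The lifts of the residue `P` in `S`. -/
def lifts (p : ℕ) (S : Finset (ℕ × ℕ)) (P : ZMod p × ZMod p) : Finset (ℕ × ℕ) :=
  S.filter fun s => res p s = P

theorem lifts_cases {S : Finset (ℕ × ℕ)} (hS : S ⊆ Finset.Icc 1 (2 * p) ×ˢ Finset.Icc 1 (2 * p))
    {P : ZMod p × ZMod p} {s : ℕ × ℕ} (hs : s ∈ lifts p S P) :
    s = (rp P.1, rp P.2) ∨ s = (rp P.1 + p, rp P.2) ∨ s = (rp P.1, rp P.2 + p) ∨
      s = (rp P.1 + p, rp P.2 + p) := by
  obtain ⟨h1, h2⟩ := Finset.mem_filter.1 hs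
  obtain ⟨h3, h4⟩ := Finset.mem_product.1 (hS h1)
  rw [Finset.mem_Icc] at h3 h4
  have e1 : ((s.1 : ℕ) : ZMod p) = P.1 := congrArg Prod.fst h2
  have e2 : ((s.2 : ℕ) : ZMod p) = P.2 := congrArg Prod.snd h2
  rcases rp_cases h3.1 h3.2 e1 with g1 | g1 <;> rcases rp_cases h4.1 h4.2 e2 with g2 | g2
  · exact Or.inl (Prod.ext g1 g2)
  · exact Or.inr (Or.inr (Or.inl (Prod.ext g1 g2)))
  · exact Or.inr (Or.inl (Prod.ext g1 g2))
  · exact Or.inr (Or.inr (Or.inr (Prod.ext g1 g2)))

omit [Fact p.Prime] in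
theorem mult_cases {k : ℤ} (hp : 0 < p) (h : (p : ℤ) ∣ k) (h1 : k < 2 * p) (h2 : -(2 * p) < k) :
    k = 0 ∨ k = p ∨ k = -p := by
  obtain ⟨j, rfl⟩ := h
  have b5 : (0 : ℤ) < p := by exact_mod_cast hp
  have k1 : j < 2 := by nlinarith
  have k2 : -2 < j := by nlinarith
  have k3 : j = 0 ∨ j = 1 ∨ j = -1 := by omega
  rcases k3 with rfl | rfl | rfl
  · left; ring
  · right; left; ring
  · right; right; ring

/-- Two residues on one antidiagonal modulo `p`. -/
theorem sum_pair {S : Finset (ℕ × ℕ)} (hS : S ⊆ Finset.Icc 1 (2 * p) ×ˢ Finset.Icc 1 (2 * p))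
    (h3 : NoThree S) {P Q : ZMod p × ZMod p} (h : P.1 + P.2 = Q.1 + Q.2) (hPQ : P ≠ Q) :
    (lifts p S P).card + (lifts p S Q).card ≤ 6 := by
  classical
  have hp : 0 < p := (Fact.out : p.Prime).pos
  have hdisj : Disjoint (lifts p S P) (lifts p S Q) := by
    rw [Finset.disjoint_left]
    intro s h1 h2
    exact hPQ ((Finset.mem_filter.1 h1).2.symm.trans (Finset.mem_filter.1 h2).2)
  rw [← Finset.card_union_of_disjoint hdisj]
  obtain ⟨p1, p2⟩ := rp_bounds P.1
  obtain ⟨p3, p4⟩ := rp_bounds P.2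
  obtain ⟨q1, q2⟩ := rp_bounds Q.1
  obtain ⟨q3, q4⟩ := rp_bounds Q.2
  have hd : (p : ℤ) ∣ ((rp Q.1 : ℤ) + rp Q.2) - ((rp P.1 : ℤ) + rp P.2) := by
    apply dvd_of_cast
    push_cast
    rw [rp_cast, rp_cast, rp_cast, rp_cast, h, sub_self]
  have hc := mult_cases hp hd (by omega) (by omega)
  refine pair6 h3 (p : ℤ) 1 1 (Or.inl one_ne_zero) (α := (rp P.1, rp P.2))
    (β₁ := (rp P.1 + p, rp P.2)) (β₂ := (rp P.1, rp P.2 + p)) (γ := (rp P.1 + p, rp P.2 + p))
    (α' := (rp Q.1, rp Q.2))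
    (β₁' := (rp Q.1 + p, rp Q.2)) (β₂' := (rp Q.1, rp Q.2 + p)) (γ' := (rp Q.1 + p, rp Q.2 + p))
    (t := (rp P.1 : ℤ) + rp P.2) (t' := (rp Q.1 : ℤ) + rp Q.2)
    ?_ ?_ ?_ ?_ ?_ ?_ ?_ ?_ ?_ _ ?_ ?_
  · push_cast; ring
  · push_cast; ring
  · push_cast; ring
  · push_cast; ring
  · push_cast; ring
  · push_cast; ring
  · push_cast; ring
  · push_cast; ring
  · rcases hc with h0 | h0 | h0
    · left; linarith
    · right; left; linarith
    · right; right; linarith
  · exact Finset.union_subset (Finset.filter_subset _ _) (Finset.filter_subset _ _)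
  · intro s hs
    rcases Finset.mem_union.1 hs with h1 | h1
    · rcases lifts_cases hS h1 with g | g | g | g
      · exact Or.inl g
      · exact Or.inr (Or.inl g)
      · exact Or.inr (Or.inr (Or.inl g))
      · exact Or.inr (Or.inr (Or.inr (Or.inl g)))
    · rcases lifts_cases hS h1 with g | g | g | g
      · exact Or.inr (Or.inr (Or.inr (Or.inr (Or.inl g))))
      · exact Or.inr (Or.inr (Or.inr (Or.inr (Or.inr (Or.inl g)))))
      · exact Or.inr (Or.inr (Or.inr (Or.inr (Or.inr (Or.inr (Or.inl g))))))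
      · exact Or.inr (Or.inr (Or.inr (Or.inr (Or.inr (Or.inr (Or.inr g))))))

/-- Two residues on one diagonal modulo `p`. -/
theorem diff_pair {S : Finset (ℕ × ℕ)} (hS : S ⊆ Finset.Icc 1 (2 * p) ×ˢ Finset.Icc 1 (2 * p))
    (h3 : NoThree S) {P Q : ZMod p × ZMod p} (h : P.1 - P.2 = Q.1 - Q.2) (hPQ : P ≠ Q) :
    (lifts p S P).card + (lifts p S Q).card ≤ 6 := by
  classical
  have hp : 0 < p := (Fact.out : p.Prime).pos
  have hdisj : Disjoint (lifts p S P) (lifts p S Q) := by
    rw [Finset.disjoint_left]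
    intro s h1 h2
    exact hPQ ((Finset.mem_filter.1 h1).2.symm.trans (Finset.mem_filter.1 h2).2)
  rw [← Finset.card_union_of_disjoint hdisj]
  obtain ⟨p1, p2⟩ := rp_bounds P.1
  obtain ⟨p3, p4⟩ := rp_bounds P.2
  obtain ⟨q1, q2⟩ := rp_bounds Q.1
  obtain ⟨q3, q4⟩ := rp_bounds Q.2
  have hd : (p : ℤ) ∣ ((rp Q.1 : ℤ) - rp Q.2) - ((rp P.1 : ℤ) - rp P.2) := by
    apply dvd_of_cast
    push_cast
    rw [rp_cast, rp_cast, rp_cast, rp_cast, h, sub_self]
  have hc := mult_cases hp hd (by omega) (by omega)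
  refine pair6 h3 (p : ℤ) 1 (-1) (Or.inl one_ne_zero) (α := (rp P.1, rp P.2 + p))
    (β₁ := (rp P.1, rp P.2)) (β₂ := (rp P.1 + p, rp P.2 + p)) (γ := (rp P.1 + p, rp P.2))
    (α' := (rp Q.1, rp Q.2 + p))
    (β₁' := (rp Q.1, rp Q.2)) (β₂' := (rp Q.1 + p, rp Q.2 + p)) (γ' := (rp Q.1 + p, rp Q.2))
    (t := (rp P.1 : ℤ) - rp P.2 - p) (t' := (rp Q.1 : ℤ) - rp Q.2 - p)
    ?_ ?_ ?_ ?_ ?_ ?_ ?_ ?_ ?_ _ ?_ ?_
  · push_cast; ring
  · push_cast; ring
  · push_cast; ring
  · push_cast; ring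
  · push_cast; ring
  · push_cast; ring
  · push_cast; ring
  · push_cast; ring
  · rcases hc with h0 | h0 | h0
    · left; linarith
    · right; left; linarith
    · right; right; linarith
  · exact Finset.union_subset (Finset.filter_subset _ _) (Finset.filter_subset _ _)
  · intro s hs
    rcases Finset.mem_union.1 hs with h1 | h1
    · rcases lifts_cases hS h1 with g | g | g | g
      · exact Or.inr (Or.inl g)
      · exact Or.inr (Or.inr (Or.inr (Or.inl g)))
      · exact Or.inl g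
      · exact Or.inr (Or.inr (Or.inl g))
    · rcases lifts_cases hS h1 with g | g | g | g
      · exact Or.inr (Or.inr (Or.inr (Or.inr (Or.inr (Or.inl g)))))
      · exact Or.inr (Or.inr (Or.inr (Or.inr (Or.inr (Or.inr (Or.inr g))))))
      · exact Or.inr (Or.inr (Or.inr (Or.inr (Or.inl g))))
      · exact Or.inr (Or.inr (Or.inr (Or.inr (Or.inr (Or.inr (Or.inl g))))))

/-- No point of the hyperbola has `b x + e = 0`. -/
theorem fst_ne {b d e f : ZMod p} (h : NoLine 0 b 0 d e f) (hb : b ≠ 0) :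
    ∀ P ∈ zset 0 b 0 d e f, P.1 ≠ -e / b := by
  intro P hP hPx
  rw [mem_zset] at hP
  obtain ⟨t, ht⟩ := h (-e / b) 0 0 1 (Or.inr one_ne_zero)
  apply ht
  have h1 : quad 0 b 0 d e f (-e / b + t * 0) (0 + t * 1) = d * (-e / b) + f := by
    unfold quad; field_simp; ring
  have h2 : quad 0 b 0 d e f P.1 P.2 = d * (-e / b) + f := by
    rw [hPx]; unfold quad; field_simp; ring
  rw [h1, ← h2, hP]

theorem zset_card_le {b d e f : ZMod p} (h : NoLine 0 b 0 d e f) (hb : b ≠ 0) :
    (zset 0 b 0 d e f).card ≤ p - 1 := by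
  classical
  have hx := fst_ne h hb
  have hinj : Set.InjOn (fun P : ZMod p × ZMod p => P.1) (zset 0 b 0 d e f : Set _) := by
    intro P hP Q hQ hPQ
    have hP' := Finset.mem_coe.mp hP
    have hQ' := Finset.mem_coe.mp hQ
    simp only at hPQ
    refine Prod.ext hPQ ?_
    have h1 := mem_zset.mp hP'
    have h2 := mem_zset.mp hQ'
    unfold quad at h1 h2
    rw [← hPQ] at h2
    have h3 : (b * P.1 + e) * (P.2 - Q.2) = 0 := by linear_combination h1 - h2
    rcases mul_eq_zero.mp h3 with h4 | h4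
    · exfalso
      apply hx P hP'
      field_simp
      linear_combination h4
    · exact sub_eq_zero.mp h4
  rw [← Finset.card_image_of_injOn hinj]
  calc _ ≤ (Finset.univ.erase (-e / b)).card := by
        apply Finset.card_le_card
        intro x hxm
        obtain ⟨P, hP, rfl⟩ := Finset.mem_image.mp hxm
        exact Finset.mem_erase.mpr ⟨hx P hP, Finset.mem_univ _⟩
    _ = p - 1 := by rw [Finset.card_erase_of_mem (Finset.mem_univ _), Finset.card_univ, ZMod.card]

/-- The upper bound for hyperbolas with asymptotes parallel to the axes. -/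
theorem upper_hyper (hp2 : p ≠ 2) {b d e f : ZMod p} (h : NoLine 0 b 0 d e f) (hb : b ≠ 0)
    {S : Finset (ℕ × ℕ)} (hS : S ⊆ Finset.Icc 1 (2 * p) ×ˢ Finset.Icc 1 (2 * p))
    (h3 : NoThree S) (hmem : ∀ s ∈ S, res p s ∈ zset 0 b 0 d e f) :
    S.card ≤ 3 * (p - 1) := by
  classical
  have h2 : (2 : ZMod p) ≠ 0 := by
    intro h0
    have h1 : ((2 : ℕ) : ZMod p) = 0 := by exact_mod_cast h0
    rw [ZMod.natCast_eq_zero_iff] at h1
    exact hp2 ((Nat.prime_dvd_prime_iff_eq (Fact.out : p.Prime) Nat.prime_two).1 h1)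
  set C := zset 0 b 0 d e f with hC
  set u := (d + e) / b with hu
  set v := (d - e) / b with hv
  set σm : ZMod p × ZMod p → ZMod p × ZMod p := fun P => (-P.2 - u, -P.1 - u) with hσm
  set σp : ZMod p × ZMod p → ZMod p × ZMod p := fun P => (P.2 + v, P.1 - v) with hσp
  set τ : ZMod p × ZMod p → ZMod p × ZMod p := fun P => if σp P = P then σm P else σp P with hτ
  have hmC : ∀ P ∈ C, σm P ∈ C := by
    intro P hP
    rw [hC, mem_zset, quad_hyper] at hP ⊢
    rw [← hP]
    simp only [hσm, hu]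
    field_simp
    ring
  have hpC : ∀ P ∈ C, σp P ∈ C := by
    intro P hP
    rw [hC, mem_zset, quad_hyper] at hP ⊢
    rw [← hP]
    simp only [hσp, hv]
    field_simp
    ring
  have hτC : ∀ P ∈ C, τ P ∈ C := by
    intro P hP
    simp only [hτ]
    split_ifs
    · exact hmC P hP
    · exact hpC P hP
  have hττ : ∀ P, τ (τ P) = P := by
    intro P
    simp only [hτ]
    by_cases h1 : σp P = P
    · rw [if_pos h1]
      have e1 : P.2 + v = P.1 := congrArg Prod.fst h1
      have h4 : σp (σm P) = σm P := by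
        simp only [hσp, hσm]
        refine Prod.ext ?_ ?_
        · simp only; linear_combination e1
        · simp only; linear_combination (-1 : ZMod p) * e1
      rw [if_pos h4]
      simp only [hσm]
      refine Prod.ext ?_ ?_
      · simp only; ring
      · simp only; ring
    · rw [if_neg h1]
      have h4 : σp (σp P) = P := by
        simp only [hσp]
        refine Prod.ext ?_ ?_
        · simp only; ring
        · simp only; ring
      have h5 : ¬ σp (σp P) = σp P := by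
        rw [h4]
        exact fun h6 => h1 h6.symm
      rw [if_neg h5, h4]
  have hpair : ∀ P ∈ C, (lifts p S P).card + (lifts p S (τ P)).card ≤ 6 := by
    intro P hP
    simp only [hτ]
    by_cases h1 : σp P = P
    · rw [if_pos h1]
      refine diff_pair hS h3 ?_ ?_
      · simp only [hσm]; ring
      · intro h4
        have e1 : P.2 + v = P.1 := congrArg Prod.fst h1
        have e2 : P.1 = -P.2 - u := congrArg Prod.fst h4
        apply fst_ne h hb P hP
        have e3 : 2 * P.1 = v - u := by linear_combination e2 - e1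
        have e4 : v - u = 2 * (-e / b) := by rw [hu, hv]; field_simp; ring
        exact mul_left_cancel₀ h2 (e3.trans e4)
    · rw [if_neg h1]
      refine sum_pair hS h3 ?_ fun h4 => h1 h4.symm
      simp only [hσp]; ring
  have hsum : S.card = ∑ P ∈ C, (lifts p S P).card :=
    Finset.card_eq_sum_card_fiberwise fun s hs => hmem s hs
  have hsum2 : ∑ P ∈ C, (lifts p S (τ P)).card = ∑ P ∈ C, (lifts p S P).card :=
    Finset.sum_nbij' τ τ hτC hτC (fun P _ => hττ P) (fun P _ => hττ P) fun P _ => rfl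
  have hle : ∑ P ∈ C, ((lifts p S P).card + (lifts p S (τ P)).card) ≤ ∑ _P ∈ C, 6 :=
    Finset.sum_le_sum hpair
  rw [Finset.sum_add_distrib, hsum2, ← hsum, Finset.sum_const, smul_eq_mul] at hle
  have hCc := zset_card_le h hb
  rw [← hC] at hCc
  omega

/-- The upper bound for all conics. -/
theorem upper (h11 : 11 ≤ p) {a b c d e f : ZMod p} (hQ : NoLine a b c d e f)
    {S : Finset (ℕ × ℕ)} (hS : S ⊆ Finset.Icc 1 (2 * p) ×ˢ Finset.Icc 1 (2 * p))
    (h3 : NoThree S)
    (hz : ∀ s ∈ S, quad a b c d e f (s.1 : ZMod p) (s.2 : ZMod p) = 0) :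
    S.card ≤ 3 * (p - 1) := by
  classical
  have hp : p.Prime := Fact.out
  have hp2 : p ≠ 2 := by omega
  have hodd : p % 2 = 1 := by
    rcases hp.eq_two_or_odd with h | h
    · omega
    · exact h
  have hdiv : 2 * p / p = 2 := Nat.mul_div_cancel 2 hp.pos
  have hmem : ∀ s ∈ S, res p s ∈ zset a b c d e f := fun s hs => mem_zset.mpr (hz s hs)
  by_cases ha : a = 0
  · by_cases hc : c = 0
    · subst ha hc
      by_cases hb : b = 0
      · -- the zero set is empty
        subst hb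
        have hS0 : S = ∅ := by
          by_contra hne
          obtain ⟨s, hs⟩ := Finset.nonempty_iff_ne_empty.mpr hne
          have hs0 := hz s hs
          rw [quad_hyper] at hs0
          by_cases hde : d = 0 ∧ e = 0
          · obtain ⟨t, ht⟩ := hQ (s.1 : ZMod p) (s.2 : ZMod p) 1 0 (Or.inl one_ne_zero)
            apply ht
            rw [quad_hyper]
            rw [hde.1, hde.2] at hs0 ⊢
            linear_combination hs0
          · have hde' : -e ≠ 0 ∨ d ≠ 0 := by
              by_contra h0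
              push Not at h0
              exact hde ⟨h0.2, neg_eq_zero.mp h0.1⟩
            obtain ⟨t, ht⟩ := hQ (s.1 : ZMod p) (s.2 : ZMod p) (-e) d hde'
            apply ht
            rw [quad_hyper]
            linear_combination hs0
        rw [hS0]
        simp
      · exact upper_hyper hp2 hQ hb hS h3 hmem
    · -- columns
      have hcols := cols_le hp2 hQ hc
      set R := (zset a b c d e f).image fun P => P.1 with hR
      have hcount := (count_residues_le (2 * p) R).1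
      have hSle := card_le_of_cols h3 ((Finset.Icc 1 (2 * p)).filter fun y : ℕ => (y : ZMod p) ∈ R)
        (fun s hs => Finset.mem_filter.mpr ⟨(Finset.mem_product.mp (hS hs)).1,
          Finset.mem_image.mpr ⟨_, hmem s hs, rfl⟩⟩)
      rw [hdiv] at hcount
      have hRp : R.card ≤ p := by
        calc R.card ≤ (Finset.univ : Finset (ZMod p)).card := Finset.card_le_univ _
          _ = p := by rw [Finset.card_univ, ZMod.card]
      omega
  · -- rows
    have hrows := rows_le hp2 hQ ha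
    set R := (zset a b c d e f).image fun P => P.2 with hR
    have hcount := (count_residues_le (2 * p) R).1
    have hSle := card_le_of_rows h3 ((Finset.Icc 1 (2 * p)).filter fun y : ℕ => (y : ZMod p) ∈ R)
      (fun s hs => Finset.mem_filter.mpr ⟨(Finset.mem_product.mp (hS hs)).2,
        Finset.mem_image.mpr ⟨_, hmem s hs, rfl⟩⟩)
    rw [hdiv] at hcount
    have hRp : R.card ≤ p := by
      calc R.card ≤ (Finset.univ : Finset (ZMod p)).card := Finset.card_le_univ _
        _ = p := by rw [Finset.card_univ, ZMod.card]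
    omega

/-! ### The construction of Hall, Jackson, Sudbery and Wild -/

/-- Collinear points have vanishing determinant. -/
theorem cross_of_collinear {P Q R : ℕ × ℕ}
    (h : Collinear ℝ ({((P.1 : ℝ), (P.2 : ℝ)), ((Q.1 : ℝ), (Q.2 : ℝ)),
      ((R.1 : ℝ), (R.2 : ℝ))} : Set (ℝ × ℝ))) :
    ((Q.1 : ℤ) - P.1) * ((R.2 : ℤ) - P.2) = ((Q.2 : ℤ) - P.2) * ((R.1 : ℤ) - P.1) := by
  rw [collinear_iff_of_mem (p₀ := ((P.1 : ℝ), (P.2 : ℝ))) (by simp)] at h
  obtain ⟨v, hv⟩ := h
  obtain ⟨r, hr⟩ := hv ((Q.1 : ℝ), (Q.2 : ℝ)) (by simp)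
  obtain ⟨s, hs⟩ := hv ((R.1 : ℝ), (R.2 : ℝ)) (by simp)
  have h1 : (Q.1 : ℝ) = r * v.1 + P.1 := by simpa using congrArg Prod.fst hr
  have h2 : (Q.2 : ℝ) = r * v.2 + P.2 := by simpa using congrArg Prod.snd hr
  have h3 : (R.1 : ℝ) = s * v.1 + P.1 := by simpa using congrArg Prod.fst hs
  have h4 : (R.2 : ℝ) = s * v.2 + P.2 := by simpa using congrArg Prod.snd hs
  have h5 : ((Q.1 : ℝ) - P.1) * ((R.2 : ℝ) - P.2) = ((Q.2 : ℝ) - P.2) * ((R.1 : ℝ) - P.1) := by
    rw [h1, h2, h3, h4]; ring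
  exact_mod_cast h5

/-- The lifts of the hyperbola `(x - 1) (y - h) = 1` outside of the central window. -/
def T (p h : ℕ) : Finset (ℕ × ℕ) :=
  (Finset.Icc 1 (2 * p) ×ˢ Finset.Icc 1 (2 * p)).filter fun s =>
    ((s.1 : ZMod p) - 1) * ((s.2 : ZMod p) - h) = 1 ∧
      ¬ (h + 1 ≤ s.1 ∧ s.1 ≤ h + p ∧ h + 1 ≤ s.2 ∧ s.2 ≤ h + p)

theorem mem_T {h : ℕ} {s : ℕ × ℕ} : s ∈ T p h ↔
    (1 ≤ s.1 ∧ s.1 ≤ 2 * p) ∧ (1 ≤ s.2 ∧ s.2 ≤ 2 * p) ∧
      ((s.1 : ZMod p) - 1) * ((s.2 : ZMod p) - h) = 1 ∧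
      ¬ (h + 1 ≤ s.1 ∧ s.1 ≤ h + p ∧ h + 1 ≤ s.2 ∧ s.2 ≤ h + p) := by
  unfold T
  rw [Finset.mem_filter, Finset.mem_product, Finset.mem_Icc, Finset.mem_Icc]
  tauto

/-- A diagonal pair of lifts. -/
theorem diag {h : ℕ} (hh : p + 1 = 2 * h) (h2 : 2 ≤ h) {a b c : ℕ × ℕ} (ha : a ∈ T p h)
    (hb : b ∈ T p h) (hc : c ∈ T p h) (e1 : b.1 = a.1 + p) (e2 : b.2 = a.2 + p)
    (hca : c ≠ a) (hcb : c ≠ b) (he : (c.2 : ℤ) - a.2 = (c.1 : ℤ) - a.1) : False := by
  rw [mem_T] at ha hb hc
  obtain ⟨a1, a2, a3, a4⟩ := ha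
  obtain ⟨b1, b2, b3, b4⟩ := hb
  obtain ⟨c1, c2, c3, c4⟩ := hc
  have he' : (c.2 : ZMod p) - a.2 = (c.1 : ZMod p) - a.1 := by
    have := congrArg (fun z : ℤ => (z : ZMod p)) he
    push_cast at this
    exact this
  have hprod : ((c.1 : ZMod p) - a.1) * ((c.1 : ZMod p) + a.2 - 1 - h) = 0 := by
    linear_combination c3 - a3 - ((c.1 : ZMod p) - 1) * he'
  have hpp : 0 < p := (Fact.out : p.Prime).pos
  rcases mul_eq_zero.mp hprod with g | g
  · have hd : (p : ℤ) ∣ (c.1 : ℤ) - a.1 := by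
      apply dvd_of_cast
      push_cast
      exact g
    rcases mult_cases hpp hd (by omega) (by omega) with g1 | g1 | g1
    · exact hca (Prod.ext (by omega) (by omega))
    · exact hcb (Prod.ext (by omega) (by omega))
    · omega
  · have hd : (p : ℤ) ∣ (c.1 : ℤ) + a.2 - 1 - h := by
      apply dvd_of_cast
      push_cast
      exact g
    have hd' : (p : ℤ) ∣ ((c.1 : ℤ) + a.2 - 1 - h) - p := (dvd_sub_self_right).2 hd
    rcases mult_cases hpp hd' (by omega) (by omega) with g1 | g1 | g1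
    · omega
    · omega
    · omega

/-- An antidiagonal pair of lifts. -/
theorem antidiag {h : ℕ} (hh : p + 1 = 2 * h) (h2 : 2 ≤ h) {a b c : ℕ × ℕ} (ha : a ∈ T p h)
    (hb : b ∈ T p h) (hc : c ∈ T p h) (e1 : b.1 = a.1 + p) (e2 : a.2 = b.2 + p)
    (hca : c ≠ a) (hcb : c ≠ b) (he : (c.2 : ℤ) - a.2 = (a.1 : ℤ) - c.1) : False := by
  rw [mem_T] at ha hb hc
  obtain ⟨a1, a2, a3, a4⟩ := ha
  obtain ⟨b1, b2, b3, b4⟩ := hb
  obtain ⟨c1, c2, c3, c4⟩ := hc
  have he' : (c.2 : ZMod p) - a.2 = (a.1 : ZMod p) - c.1 := by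
    have := congrArg (fun z : ℤ => (z : ZMod p)) he
    push_cast at this
    exact this
  have hx : a.1 ≠ 1 := by
    intro h0
    rw [h0] at a3
    simp at a3
  have hy : a.2 ≠ h + p := by
    intro h0
    rw [h0] at a3
    simp at a3
  have hprod : ((c.1 : ZMod p) - a.1) * ((c.1 : ZMod p) - a.2 - 1 + h) = 0 := by
    linear_combination a3 - c3 + ((c.1 : ZMod p) - 1) * he'
  have hpp : 0 < p := (Fact.out : p.Prime).pos
  rcases mul_eq_zero.mp hprod with g | g
  · have hd : (p : ℤ) ∣ (c.1 : ℤ) - a.1 := by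
      apply dvd_of_cast
      push_cast
      exact g
    rcases mult_cases hpp hd (by omega) (by omega) with g1 | g1 | g1
    · exact hca (Prod.ext (by omega) (by omega))
    · exact hcb (Prod.ext (by omega) (by omega))
    · omega
  · have hd : (p : ℤ) ∣ (c.1 : ℤ) - a.2 - 1 + h := by
      apply dvd_of_cast
      push_cast
      exact g
    rcases mult_cases hpp hd (by omega) (by omega) with g1 | g1 | g1
    · omega
    · omega
    · omega

/-- The first coordinate determines the second one. -/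
theorem snd_of_fst {h : ℕ} {a c : ℕ × ℕ} (ha : a ∈ T p h) (hc : c ∈ T p h)
    (he : (c.1 : ZMod p) = (a.1 : ZMod p)) : (c.2 : ZMod p) = (a.2 : ZMod p) := by
  rw [mem_T] at ha hc
  have h1 := ha.2.2.1
  have h2 := hc.2.2.1
  rw [he] at h2
  have h3 : (a.1 : ZMod p) - 1 ≠ 0 := left_ne_zero_of_mul_eq_one h1
  have h4 := mul_left_cancel₀ h3 (h2.trans h1.symm)
  linear_combination h4

theorem fst_of_snd {h : ℕ} {a c : ℕ × ℕ} (ha : a ∈ T p h) (hc : c ∈ T p h)
    (he : (c.2 : ZMod p) = (a.2 : ZMod p)) : (c.1 : ZMod p) = (a.1 : ZMod p) := by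
  rw [mem_T] at ha hc
  have h1 := ha.2.2.1
  have h2 := hc.2.2.1
  rw [he] at h2
  have h3 : (a.2 : ZMod p) - h ≠ 0 := right_ne_zero_of_mul_eq_one h1
  have h4 := mul_right_cancel₀ h3 (h2.trans h1.symm)
  linear_combination h4

/-- Two points with the same residue and a third point are not in line. -/
theorem key {h : ℕ} (hh : p + 1 = 2 * h) (h2 : 2 ≤ h) {a b c : ℕ × ℕ} (ha : a ∈ T p h)
    (hb : b ∈ T p h) (hc : c ∈ T p h) (hab : a ≠ b) (hca : c ≠ a) (hcb : c ≠ b)
    (hres : res p a = res p b)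
    (hcr : ((b.1 : ℤ) - a.1) * ((c.2 : ℤ) - a.2) = ((b.2 : ℤ) - a.2) * ((c.1 : ℤ) - a.1)) :
    False := by
  have hpp : 0 < p := (Fact.out : p.Prime).pos
  have hpz : (p : ℤ) ≠ 0 := by exact_mod_cast hpp.ne'
  obtain ⟨⟨a1, a2⟩, ⟨a3, a4⟩, -, -⟩ := mem_T.1 ha
  obtain ⟨⟨b1, b2⟩, ⟨b3, b4⟩, -, -⟩ := mem_T.1 hb
  obtain ⟨⟨c1, c2⟩, ⟨c3, c4⟩, -, -⟩ := mem_T.1 hc
  have r1 : (a.1 : ZMod p) = b.1 := congrArg Prod.fst hres
  have r2 : (a.2 : ZMod p) = b.2 := congrArg Prod.snd hres
  have d1 : (p : ℤ) ∣ (b.1 : ℤ) - a.1 := by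
    apply dvd_of_cast
    push_cast
    rw [r1, sub_self]
  have d2 : (p : ℤ) ∣ (b.2 : ℤ) - a.2 := by
    apply dvd_of_cast
    push_cast
    rw [r2, sub_self]
  rcases mult_cases hpp d1 (by omega) (by omega) with g | g | g <;>
    rcases mult_cases hpp d2 (by omega) (by omega) with g' | g' | g' <;> rw [g, g'] at hcr
  · exact hab (Prod.ext (by omega) (by omega))
  · -- vertical
    have h0 : (c.1 : ℤ) = a.1 := by
      have : (p : ℤ) * ((c.1 : ℤ) - a.1) = 0 := by linarith
      have := (mul_eq_zero.1 this).resolve_left hpz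
      linarith
    have h0' : c.1 = a.1 := by exact_mod_cast h0
    have d3 : (p : ℤ) ∣ (c.2 : ℤ) - a.2 := by
      apply dvd_of_cast
      push_cast
      rw [snd_of_fst ha hc (by rw [h0']), sub_self]
    rcases mult_cases hpp d3 (by omega) (by omega) with g3 | g3 | g3
    · exact hca (Prod.ext h0' (by omega))
    · exact hcb (Prod.ext (by omega) (by omega))
    · omega
  · have h0 : (c.1 : ℤ) = a.1 := by
      have : (p : ℤ) * ((c.1 : ℤ) - a.1) = 0 := by linarith
      have := (mul_eq_zero.1 this).resolve_left hpz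
      linarith
    have h0' : c.1 = a.1 := by exact_mod_cast h0
    have d3 : (p : ℤ) ∣ (c.2 : ℤ) - a.2 := by
      apply dvd_of_cast
      push_cast
      rw [snd_of_fst ha hc (by rw [h0']), sub_self]
    rcases mult_cases hpp d3 (by omega) (by omega) with g3 | g3 | g3
    · exact hca (Prod.ext h0' (by omega))
    · omega
    · exact hcb (Prod.ext (by omega) (by omega))
  · -- horizontal
    have h0 : (c.2 : ℤ) = a.2 := by
      have : (p : ℤ) * ((c.2 : ℤ) - a.2) = 0 := by linarith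
      have := (mul_eq_zero.1 this).resolve_left hpz
      linarith
    have h0' : c.2 = a.2 := by exact_mod_cast h0
    have d3 : (p : ℤ) ∣ (c.1 : ℤ) - a.1 := by
      apply dvd_of_cast
      push_cast
      rw [fst_of_snd ha hc (by rw [h0']), sub_self]
    rcases mult_cases hpp d3 (by omega) (by omega) with g3 | g3 | g3
    · exact hca (Prod.ext (by omega) h0')
    · exact hcb (Prod.ext (by omega) (by omega))
    · omega
  · -- diagonal
    refine diag hh h2 ha hb hc (by omega) (by omega) hca hcb ?_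
    exact mul_left_cancel₀ hpz hcr
  · refine antidiag hh h2 ha hb hc (by omega) (by omega) hca hcb ?_
    refine mul_left_cancel₀ hpz ?_
    linarith
  · have h0 : (c.2 : ℤ) = a.2 := by
      have : (p : ℤ) * ((c.2 : ℤ) - a.2) = 0 := by linarith
      have := (mul_eq_zero.1 this).resolve_left hpz
      linarith
    have h0' : c.2 = a.2 := by exact_mod_cast h0
    have d3 : (p : ℤ) ∣ (c.1 : ℤ) - a.1 := by
      apply dvd_of_cast
      push_cast
      rw [fst_of_snd ha hc (by rw [h0']), sub_self]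
    rcases mult_cases hpp d3 (by omega) (by omega) with g3 | g3 | g3
    · exact hca (Prod.ext (by omega) h0')
    · omega
    · exact hcb (Prod.ext (by omega) (by omega))
  · refine antidiag hh h2 hb ha hc (by omega) (by omega) hcb hca ?_
    have : (p : ℤ) * ((c.2 : ℤ) - a.2) = (p : ℤ) * ((a.1 : ℤ) - c.1) := by linarith
    have := mul_left_cancel₀ hpz this
    omega
  · refine diag hh h2 hb ha hc (by omega) (by omega) hcb hca ?_
    have : (p : ℤ) * ((c.2 : ℤ) - a.2) = (p : ℤ) * ((c.1 : ℤ) - a.1) := by linarith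
    have := mul_left_cancel₀ hpz this
    omega

/-- The hyperbola contains no line. -/
theorem noLine (h : ℕ) : NoLine (K := ZMod p) 0 1 0 (-(h : ZMod p)) (-1) ((h : ZMod p) - 1) := by
  intro x y u v huv
  rcases huv with hu | hv
  · refine ⟨(1 - x) / u, ?_⟩
    have e1 : x + (1 - x) / u * u = 1 := by field_simp; ring
    unfold quad
    rw [e1]
    ring_nf
    exact neg_ne_zero.2 one_ne_zero
  · refine ⟨((h : ZMod p) - y) / v, ?_⟩
    have e1 : y + ((h : ZMod p) - y) / v * v = h := by field_simp; ring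
    unfold quad
    rw [e1]
    ring_nf
    exact neg_ne_zero.2 one_ne_zero

theorem quad_eq {h : ℕ} {s : ℕ × ℕ} (hs : s ∈ T p h) :
    quad 0 1 0 (-(h : ZMod p)) (-1) ((h : ZMod p) - 1) (s.1 : ZMod p) (s.2 : ZMod p) = 0 := by
  have h3 := (mem_T.1 hs).2.2.1
  unfold quad
  linear_combination h3

/-- No three points of `T` are in line. -/
theorem noThree_T {h : ℕ} (hh : p + 1 = 2 * h) (h2 : 2 ≤ h) : NoThree (T p h) := by
  intro P hP Q hQ R hR hPQ hPR hQR hcol
  have hcr := cross_of_collinear hcol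
  have harc := isArc_zset (noLine (p := p) h)
  have hz : ∀ s ∈ T p h,
      res p s ∈ zset (p := p) 0 1 0 (-(h : ZMod p)) (-1) ((h : ZMod p) - 1) := fun s hs =>
    mem_zset.2 (quad_eq hs)
  by_cases g1 : res p P = res p Q
  · exact key hh h2 hP hQ hR hPQ hPR.symm hQR.symm g1 hcr
  by_cases g2 : res p P = res p R
  · exact key hh h2 hP hR hQ hPR hPQ.symm hQR g2 (by linarith)
  by_cases g3 : res p Q = res p R
  · refine key hh h2 hQ hR hP hQR hPQ hPR g3 ?_
    linear_combination hcr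
  · refine harc _ (hz P hP) _ (hz Q hQ) _ (hz R hR) g1 g2 g3 ?_
    unfold cross res
    have := congrArg (fun z : ℤ => (z : ZMod p)) hcr
    push_cast at this
    simp only
    linear_combination this

/-- Three of the four lifts are outside of the central window. -/
theorem three_le {h : ℕ} (hh : p + 1 = 2 * h) {P : ZMod p × ZMod p}
    (hP : (P.1 - 1) * (P.2 - h) = 1) : 3 ≤ (lifts p (T p h) P).card := by
  classical
  obtain ⟨p1, p2⟩ := rp_bounds P.1
  obtain ⟨p3, p4⟩ := rp_bounds P.2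
  have c1 := rp_cast P.1
  have c2 := rp_cast P.2
  have hmem : ∀ x y : ℕ, (x = rp P.1 ∨ x = rp P.1 + p) → (y = rp P.2 ∨ y = rp P.2 + p) →
      ¬ (h + 1 ≤ x ∧ x ≤ h + p ∧ h + 1 ≤ y ∧ y ≤ h + p) → (x, y) ∈ lifts p (T p h) P := by
    intro x y hx hy hn
    have ex : (x : ZMod p) = P.1 := by
      rcases hx with rfl | rfl
      · exact c1
      · push_cast; rw [c1, ZMod.natCast_self, add_zero]
    have ey : (y : ZMod p) = P.2 := by
      rcases hy with rfl | rfl
      · exact c2
      · push_cast; rw [c2, ZMod.natCast_self, add_zero]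
    refine Finset.mem_filter.2 ⟨mem_T.2 ⟨?_, ?_, ?_, hn⟩, ?_⟩
    · simp only; omega
    · simp only; omega
    · simp only; rw [ex, ey]; exact hP
    · unfold res; simp only; rw [ex, ey]
  have hpp : 0 < p := (Fact.out : p.Prime).pos
  have hne : ∀ x y x' y' : ℕ, x ≠ x' ∨ y ≠ y' → (x, y) ≠ (x', y') := by
    intro x y x' y' hor heq
    rw [Prod.mk.injEq] at heq
    rcases hor with g | g
    · exact g heq.1
    · exact g heq.2
  refine Finset.two_lt_card.2 ?_
  by_cases g1 : h + 1 ≤ rp P.1 <;> by_cases g2 : h + 1 ≤ rp P.2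
  · exact ⟨_, hmem (rp P.1 + p) (rp P.2) (Or.inr rfl) (Or.inl rfl) (by omega),
      _, hmem (rp P.1) (rp P.2 + p) (Or.inl rfl) (Or.inr rfl) (by omega),
      _, hmem (rp P.1 + p) (rp P.2 + p) (Or.inr rfl) (Or.inr rfl) (by omega),
      hne _ _ _ _ (by omega), hne _ _ _ _ (by omega), hne _ _ _ _ (by omega)⟩
  · exact ⟨_, hmem (rp P.1 + p) (rp P.2) (Or.inr rfl) (Or.inl rfl) (by omega),
      _, hmem (rp P.1) (rp P.2) (Or.inl rfl) (Or.inl rfl) (by omega),
      _, hmem (rp P.1 + p) (rp P.2 + p) (Or.inr rfl) (Or.inr rfl) (by omega),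
      hne _ _ _ _ (by omega), hne _ _ _ _ (by omega), hne _ _ _ _ (by omega)⟩
  · exact ⟨_, hmem (rp P.1) (rp P.2) (Or.inl rfl) (Or.inl rfl) (by omega),
      _, hmem (rp P.1) (rp P.2 + p) (Or.inl rfl) (Or.inr rfl) (by omega),
      _, hmem (rp P.1 + p) (rp P.2 + p) (Or.inr rfl) (Or.inr rfl) (by omega),
      hne _ _ _ _ (by omega), hne _ _ _ _ (by omega), hne _ _ _ _ (by omega)⟩
  · exact ⟨_, hmem (rp P.1) (rp P.2) (Or.inl rfl) (Or.inl rfl) (by omega),
      _, hmem (rp P.1) (rp P.2 + p) (Or.inl rfl) (Or.inr rfl) (by omega),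
      _, hmem (rp P.1 + p) (rp P.2) (Or.inr rfl) (Or.inl rfl) (by omega),
      hne _ _ _ _ (by omega), hne _ _ _ _ (by omega), hne _ _ _ _ (by omega)⟩

/-- The construction has at least `3 (p - 1)` points. -/
theorem card_T {h : ℕ} (hh : p + 1 = 2 * h) : 3 * (p - 1) ≤ (T p h).card := by
  classical
  set E : Finset (ZMod p) := Finset.univ.erase 1 with hE
  have hEc : E.card = p - 1 := by
    rw [hE, Finset.card_erase_of_mem (Finset.mem_univ _), Finset.card_univ, ZMod.card]
  set pt : ZMod p → ZMod p × ZMod p := fun x => (x, h + (x - 1)⁻¹) with hpt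
  have h1 : ∀ x ∈ E, 3 ≤ (lifts p (T p h) (pt x)).card := by
    intro x hx
    refine three_le hh ?_
    have hx1 : x - 1 ≠ 0 := sub_ne_zero.2 (Finset.mem_erase.1 hx).1
    simp only [hpt]
    rw [add_sub_cancel_left, mul_inv_cancel₀ hx1]
  have hdis : (E : Set (ZMod p)).PairwiseDisjoint fun x => lifts p (T p h) (pt x) := by
    intro x _ y _ hxy
    rw [Function.onFun, Finset.disjoint_left]
    intro s h3 h4
    have h5 := (Finset.mem_filter.1 h3).2.symm.trans (Finset.mem_filter.1 h4).2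
    exact hxy (congrArg Prod.fst h5)
  calc 3 * (p - 1) = ∑ _x ∈ E, 3 := by rw [Finset.sum_const, hEc, smul_eq_mul, mul_comm]
    _ ≤ ∑ x ∈ E, (lifts p (T p h) (pt x)).card := Finset.sum_le_sum h1
    _ = (E.biUnion fun x => lifts p (T p h) (pt x)).card := (Finset.card_biUnion hdis).symm
    _ ≤ (T p h).card := by
        apply Finset.card_le_card
        intro s hs
        obtain ⟨x, -, hx⟩ := Finset.mem_biUnion.1 hs
        exact (Finset.mem_filter.1 hx).1

/-- **Conics modulo `p` in the `2p × 2p` grid.** For a prime `p ≥ 11`, the largest number of points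
of a subset of the `2p × 2p` grid which has no three points in line and lies, modulo `p`, on the
zero set of a quadratic polynomial containing no line, is exactly `3 (p - 1)`. -/
theorem result (p : ℕ) [Fact p.Prime] (h11 : 11 ≤ p) :
    IsGreatest {n : ℕ | ∃ (a b c d e f : ZMod p) (S : Finset (ℕ × ℕ)), NoLine a b c d e f ∧
        S ⊆ Finset.Icc 1 (2 * p) ×ˢ Finset.Icc 1 (2 * p) ∧ NoThree S ∧
        (∀ s ∈ S, quad a b c d e f (s.1 : ZMod p) (s.2 : ZMod p) = 0) ∧ S.card = n}
      (3 * (p - 1)) := by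
  have hodd : p % 2 = 1 := by
    rcases (Fact.out : p.Prime).eq_two_or_odd with h | h
    · omega
    · exact h
  obtain ⟨h, hh⟩ : ∃ h : ℕ, p + 1 = 2 * h := ⟨(p + 1) / 2, by omega⟩
  have h2 : 2 ≤ h := by omega
  have hsub : T p h ⊆ Finset.Icc 1 (2 * p) ×ˢ Finset.Icc 1 (2 * p) := Finset.filter_subset _ _
  constructor
  · refine ⟨0, 1, 0, -(h : ZMod p), -1, (h : ZMod p) - 1, T p h, noLine h, hsub, noThree_T hh h2,
      fun s hs => quad_eq hs, ?_⟩
    exact le_antisymm (upper h11 (noLine h) hsub (noThree_T hh h2) fun s hs => quad_eq hs)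
      (card_T hh)
  · rintro n ⟨a, b, c, d, e, f, S, hQ, hS, h3, hz, rfl⟩
    exact upper h11 hQ hS h3 hz

end Pool.Agent.Results.MP_10249b_co.ConicExact
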