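import Mathlib

/-!
# At most `N` directions do not suffice (`N` prime)

Let `N` be a prime and let `D` be a set of at most `N` directions. Then there are `2N` points of the
`N × N` grid such that no line whose direction is in `D` contains three of them. More precisely, for
every finite set `D` of directions there are `2N` points of the grid for which at most `|D| / (N + 1)`
of the directions in `D` are directions of lines with three of the points.

The set is the union of two cosets of a lattice `{(x, y) : y ≡ a x mod N}` (or two neighbouring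
columns). A line which has two points in common with one of the cosets has its direction in the
lattice; and every direction belongs to exactly one of these `N + 1` lattices.

As a corollary (`rich_lines`), there are `2N` points of the grid such that every line with three of
them contains fewer than `√(2N) + 1` points of the grid.
-/

set_option autoImplicit false

namespace Pool.Agent.Results.MP_10249b_co.FewDirections

/-- The grid `{0, …, N-1}²`. -/
noncomputable def grid (N : ℕ) : Finset (ℤ × ℤ) := Finset.Ico 0 (N : ℤ) ×ˢ Finset.Ico 0 (N : ℤ)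

/-- The vector from `P` to `Q` is parallel to `d`. -/
def Par (d P Q : ℤ × ℤ) : Prop := d.1 * (Q.2 - P.2) = d.2 * (Q.1 - P.1)

/-- Some line parallel to `d` contains three points of `S`. -/
def Bad (S : Finset (ℤ × ℤ)) (d : ℤ × ℤ) : Prop :=
  ∃ P ∈ S, ∃ Q ∈ S, ∃ R ∈ S, P ≠ Q ∧ P ≠ R ∧ Q ≠ R ∧ Par d P Q ∧ Par d P R

theorem mem_grid {N : ℕ} {R : ℤ × ℤ} :
    R ∈ grid N ↔ (0 ≤ R.1 ∧ R.1 < N) ∧ (0 ≤ R.2 ∧ R.2 < N) := by
  unfold grid
  rw [Finset.mem_product, Finset.mem_Ico, Finset.mem_Ico]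

/-- The primitive vector in direction `d`. -/
theorem exists_prim {d : ℤ × ℤ} (hd : d ≠ 0) :
    ∃ g u v : ℤ, 0 < g ∧ d.1 = g * u ∧ d.2 = g * v ∧ IsCoprime u v := by
  set g : ℤ := (Int.gcd d.1 d.2 : ℤ) with hg
  have hgpos : 0 < g := by
    rw [hg]
    have : Int.gcd d.1 d.2 ≠ 0 := by
      intro h0
      rw [Int.gcd_eq_zero_iff] at h0
      exact hd (Prod.ext h0.1 h0.2)
    exact_mod_cast Nat.pos_of_ne_zero this
  obtain ⟨u, hu⟩ : g ∣ d.1 := Int.gcd_dvd_left ..
  obtain ⟨v, hv⟩ : g ∣ d.2 := Int.gcd_dvd_right ..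
  refine ⟨g, u, v, hgpos, hu, hv, ?_⟩
  rw [Int.isCoprime_iff_gcd_eq_one]
  have h1 : (Int.gcd d.1 d.2 : ℕ) = Int.gcd (g * u) (g * v) := by rw [← hu, ← hv]
  rw [Int.gcd_mul_left] at h1
  have h2 : g.natAbs = Int.gcd d.1 d.2 := by rw [hg]; exact Int.natAbs_natCast _
  rw [h2] at h1
  have h3 : 0 < Int.gcd d.1 d.2 := by
    have : (0 : ℤ) < (Int.gcd d.1 d.2 : ℤ) := hgpos
    exact_mod_cast this
  exact Nat.eq_of_mul_eq_mul_left h3 (by rw [mul_one]; exact h1.symm)

/-- The slope modulo `N` of the direction `d` (`none` is the vertical slope). -/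
noncomputable def slope (N : ℕ) (d : ℤ × ℤ) : Option (ZMod N) :=
  if (((d.1 / (Int.gcd d.1 d.2 : ℤ) : ℤ)) : ZMod N) = 0 then none
  else some ((((d.2 / (Int.gcd d.1 d.2 : ℤ) : ℤ)) : ZMod N) *
    (((d.1 / (Int.gcd d.1 d.2 : ℤ) : ℤ)) : ZMod N)⁻¹)

/-- The vector `w` is in the lattice of slope `a`. -/
def InLat (N : ℕ) (a : Option (ZMod N)) (w : ℤ × ℤ) : Prop :=
  match a with
  | none => (w.1 : ZMod N) = 0
  | some b => (w.2 : ZMod N) = b * (w.1 : ZMod N)

/-- A short vector of the lattice of slope `a` has slope `a`. -/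
theorem slope_of_inLat {N : ℕ} (hN : N.Prime) {a : Option (ZMod N)} {d P Q : ℤ × ℤ} (hd : d ≠ 0)
    (hP : P ∈ grid N) (hQ : Q ∈ grid N) (hPQ : P ≠ Q) (hpar : Par d P Q)
    (hlat : InLat N a (Q - P)) : slope N d = a := by
  classical
  have : Fact N.Prime := ⟨hN⟩
  obtain ⟨⟨p1, p2⟩, p3, p4⟩ := mem_grid.1 hP
  obtain ⟨⟨q1, q2⟩, q3, q4⟩ := mem_grid.1 hQ
  obtain ⟨g, u, v, hg, hu, hv, huv⟩ := exists_prim hd
  have hgcd : (Int.gcd d.1 d.2 : ℤ) = g := by
    rw [hu, hv, Int.gcd_mul_left, Int.isCoprime_iff_gcd_eq_one.1 huv, mul_one]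
    omega
  have e1 : d.1 / (Int.gcd d.1 d.2 : ℤ) = u := by
    rw [hgcd, hu]
    exact Int.mul_ediv_cancel_left _ hg.ne'
  have e2 : d.2 / (Int.gcd d.1 d.2 : ℤ) = v := by
    rw [hgcd, hv]
    exact Int.mul_ediv_cancel_left _ hg.ne'
  have hpar' : u * (Q.2 - P.2) = v * (Q.1 - P.1) := by
    have h1 : g * (u * (Q.2 - P.2)) = g * (v * (Q.1 - P.1)) := by
      have := hpar
      unfold Par at this
      rw [hu, hv] at this
      rw [← mul_assoc, ← mul_assoc]
      exact this
    exact mul_left_cancel₀ hg.ne' h1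
  obtain ⟨x, y, hxy⟩ := huv
  set t : ℤ := x * (Q.1 - P.1) + y * (Q.2 - P.2) with ht
  have hx : Q.1 - P.1 = t * u := by
    rw [ht]
    linear_combination (-(Q.1 - P.1)) * hxy - y * hpar'
  have hy : Q.2 - P.2 = t * v := by
    rw [ht]
    linear_combination (-(Q.2 - P.2)) * hxy + x * hpar'
  have ht0 : t ≠ 0 := by
    intro h0
    rw [h0, zero_mul] at hx hy
    exact hPQ (Prod.ext (by omega) (by omega))
  have huv0 : u ≠ 0 ∨ v ≠ 0 := by
    by_contra hcon
    push Not at hcon
    rw [hcon.1, hcon.2] at hxy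
    simp at hxy
  have htN : |t| < N := by
    have ht1 : 0 ≤ |t| := abs_nonneg t
    rcases huv0 with h | h
    · have h2 : 1 ≤ |u| := Int.one_le_abs h
      have h3 : |Q.1 - P.1| < N := by rw [abs_lt]; omega
      rw [hx, abs_mul] at h3
      nlinarith
    · have h2 : 1 ≤ |v| := Int.one_le_abs h
      have h3 : |Q.2 - P.2| < N := by rw [abs_lt]; omega
      rw [hy, abs_mul] at h3
      nlinarith
  have htZ : (t : ZMod N) ≠ 0 := by
    intro h0
    have hdv : (N : ℤ) ∣ t := (ZMod.intCast_zmod_eq_zero_iff_dvd t N).1 h0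
    exact ht0 (Int.eq_zero_of_abs_lt_dvd hdv htN)
  have hnot : ¬ ((u : ZMod N) = 0 ∧ (v : ZMod N) = 0) := by
    rintro ⟨h1, h2⟩
    have h3 := congrArg (fun z : ℤ => (z : ZMod N)) hxy
    push_cast at h3
    rw [h1, h2] at h3
    simp at h3
  unfold slope
  rw [e1, e2]
  cases a with
  | none =>
    have h1 : ((Q.1 - P.1 : ℤ) : ZMod N) = 0 := hlat
    rw [hx] at h1
    push_cast at h1
    have h2 : (u : ZMod N) = 0 := by
      rcases mul_eq_zero.1 h1 with h | h
      · exact absurd h htZ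
      · exact h
    rw [if_pos h2]
  | some b =>
    have h1 : ((Q.2 - P.2 : ℤ) : ZMod N) = b * ((Q.1 - P.1 : ℤ) : ZMod N) := hlat
    rw [hx, hy] at h1
    push_cast at h1
    have h2 : (t : ZMod N) * (v : ZMod N) = (t : ZMod N) * (b * (u : ZMod N)) := by
      rw [h1]; ring
    have h3 := mul_left_cancel₀ htZ h2
    have h4 : (u : ZMod N) ≠ 0 := by
      intro h0
      apply hnot
      refine ⟨h0, ?_⟩
      rw [h3, h0, mul_zero]
    rw [if_neg h4, h3, mul_assoc, mul_inv_cancel₀ h4, mul_one]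

/-- The points of the `i`-th coset. -/
def pt (N : ℕ) (a : Option (ZMod N)) (i : ℕ) (x : ℕ) : ℤ × ℤ :=
  match a with
  | none => ((i : ℤ), (x : ℤ))
  | some b => ((x : ℤ), (((b * (x : ZMod N) + (i : ZMod N) : ZMod N).val : ℕ) : ℤ))

/-- The `i`-th coset. -/
def coset (N : ℕ) (a : Option (ZMod N)) (i : ℕ) : Finset (ℤ × ℤ) :=
  (Finset.range N).image (pt N a i)

theorem pt_inj (N : ℕ) (a : Option (ZMod N)) (i : ℕ) : Function.Injective (pt N a i) := by
  intro x y hxy
  cases a with
  | none =>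
    have := congrArg Prod.snd hxy
    simp only [pt] at this
    exact_mod_cast this
  | some b =>
    have := congrArg Prod.fst hxy
    simp only [pt] at this
    exact_mod_cast this

theorem coset_card (N : ℕ) (a : Option (ZMod N)) (i : ℕ) : (coset N a i).card = N := by
  unfold coset
  rw [Finset.card_image_of_injective _ (pt_inj N a i), Finset.card_range]

theorem coset_sub {N : ℕ} (hN : N.Prime) (a : Option (ZMod N)) {i : ℕ} (hi : i < 2) :
    coset N a i ⊆ grid N := by
  have : NeZero N := ⟨hN.ne_zero⟩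
  have h2 := hN.two_le
  intro P hP
  obtain ⟨x, hx, rfl⟩ := Finset.mem_image.1 hP
  rw [Finset.mem_range] at hx
  rw [mem_grid]
  cases a with
  | none =>
    simp only [pt]
    omega
  | some b =>
    have h3 := ZMod.val_lt (b * (x : ZMod N) + (i : ZMod N))
    simp only [pt]
    generalize (b * (x : ZMod N) + (i : ZMod N) : ZMod N).val = m at h3
    omega

theorem coset_lat {N : ℕ} (hN : N.Prime) (a : Option (ZMod N)) (i : ℕ) {P Q : ℤ × ℤ}
    (hP : P ∈ coset N a i) (hQ : Q ∈ coset N a i) : InLat N a (Q - P) := by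
  have : NeZero N := ⟨hN.ne_zero⟩
  obtain ⟨x, hx, rfl⟩ := Finset.mem_image.1 hP
  obtain ⟨y, hy, rfl⟩ := Finset.mem_image.1 hQ
  cases a with
  | none =>
    change (((i : ℤ) - (i : ℤ) : ℤ) : ZMod N) = 0
    rw [sub_self, Int.cast_zero]
  | some b =>
    change (((((b * (y : ZMod N) + (i : ZMod N) : ZMod N).val : ℕ) : ℤ) -
      (((b * (x : ZMod N) + (i : ZMod N) : ZMod N).val : ℕ) : ℤ) : ℤ) : ZMod N) =
      b * (((y : ℤ) - (x : ℤ) : ℤ) : ZMod N)
    rw [Int.cast_sub, Int.cast_sub, Int.cast_natCast, Int.cast_natCast, Int.cast_natCast,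
      Int.cast_natCast, ZMod.natCast_zmod_val, ZMod.natCast_zmod_val]
    ring

theorem coset_disj {N : ℕ} (hN : N.Prime) (a : Option (ZMod N)) :
    Disjoint (coset N a 0) (coset N a 1) := by
  have : NeZero N := ⟨hN.ne_zero⟩
  have : Fact N.Prime := ⟨hN⟩
  rw [Finset.disjoint_left]
  intro P h0 h1
  obtain ⟨x, hx, rfl⟩ := Finset.mem_image.1 h0
  obtain ⟨y, hy, hxy⟩ := Finset.mem_image.1 h1
  cases a with
  | none =>
    have := congrArg Prod.fst hxy
    simp only [pt] at this
    omega
  | some b =>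
    have e1 := congrArg Prod.fst hxy
    have e2 := congrArg Prod.snd hxy
    simp only [pt] at e1 e2
    have e3 : y = x := by exact_mod_cast e1
    rw [e3] at e2
    have e4 : (b * (x : ZMod N) + ((1 : ℕ) : ZMod N) : ZMod N).val =
      (b * (x : ZMod N) + ((0 : ℕ) : ZMod N) : ZMod N).val := by exact_mod_cast e2
    have e5 := ZMod.val_injective N e4
    have e6 := add_left_cancel e5
    rw [Nat.cast_one, Nat.cast_zero] at e6
    exact one_ne_zero e6

/-- The direction of a line with three points of the union of the cosets has slope `a`. -/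
theorem slope_of_bad {N : ℕ} (hN : N.Prime) (a : Option (ZMod N)) {d : ℤ × ℤ} (hd : d ≠ 0)
    (hbad : Bad (coset N a 0 ∪ coset N a 1) d) : slope N d = a := by
  obtain ⟨P, hP, Q, hQ, R, hR, hPQ, hPR, hQR, h1, h2⟩ := hbad
  have h3 : Par d Q R := by
    unfold Par at *
    linear_combination h2 - h1
  have key : ∀ i < 2, ∀ A B : ℤ × ℤ, A ∈ coset N a i → B ∈ coset N a i → A ≠ B → Par d A B →
      slope N d = a := fun i hi A B hA hB hAB hpar =>
    slope_of_inLat hN hd (coset_sub hN a hi hA) (coset_sub hN a hi hB) hAB hpar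
      (coset_lat hN a i hA hB)
  rcases Finset.mem_union.1 hP with a1 | a1 <;> rcases Finset.mem_union.1 hQ with a2 | a2 <;>
    rcases Finset.mem_union.1 hR with a3 | a3
  · exact key 0 (by norm_num) P Q a1 a2 hPQ h1
  · exact key 0 (by norm_num) P Q a1 a2 hPQ h1
  · exact key 0 (by norm_num) P R a1 a3 hPR h2
  · exact key 1 (by norm_num) Q R a2 a3 hQR h3
  · exact key 0 (by norm_num) Q R a2 a3 hQR h3
  · exact key 1 (by norm_num) P R a1 a3 hPR h2
  · exact key 1 (by norm_num) P Q a1 a2 hPQ h1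
  · exact key 1 (by norm_num) P Q a1 a2 hPQ h1

open Classical in
/-- **Few directions do not suffice.** For every prime `N` and every finite set `D` of directions
there are `2N` points of the `N × N` grid for which at most `|D| / (N + 1)` directions in `D` are
directions of lines with three of the points; none, if `|D| ≤ N`. -/
theorem result (N : ℕ) (hN : N.Prime) (D : Finset (ℤ × ℤ)) (hD : ∀ d ∈ D, d ≠ 0) :
    ∃ S : Finset (ℤ × ℤ), S ⊆ grid N ∧ S.card = 2 * N ∧
      (N + 1) * (D.filter fun d => Bad S d).card ≤ D.card := by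
  have : Fact N.Prime := ⟨hN⟩
  have : NeZero N := ⟨hN.ne_zero⟩
  have hcard : (Finset.univ : Finset (Option (ZMod N))).card = N + 1 := by
    rw [Finset.card_univ, Fintype.card_option, ZMod.card]
  obtain ⟨a, -, ha⟩ := Finset.exists_card_fiber_lt_of_card_lt_mul (s := D)
    (t := (Finset.univ : Finset (Option (ZMod N)))) (f := slope N) (n := D.card / (N + 1) + 1) (by
      rw [hcard]
      exact Nat.lt_mul_div_succ _ (Nat.succ_pos N))
  refine ⟨coset N a 0 ∪ coset N a 1, Finset.union_subset (coset_sub hN a (by norm_num))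
    (coset_sub hN a (by norm_num)), ?_, ?_⟩
  · rw [Finset.card_union_of_disjoint (coset_disj hN a), coset_card, coset_card]
    ring
  · have h1 : (D.filter fun d => Bad (coset N a 0 ∪ coset N a 1) d).card ≤
        (D.filter fun d => slope N d = a).card := by
      apply Finset.card_le_card
      intro d hd
      rw [Finset.mem_filter] at hd ⊢
      exact ⟨hd.1, slope_of_bad hN a (hD d hd.1) hd.2⟩
    have h2 : (D.filter fun d => Bad (coset N a 0 ∪ coset N a 1) d).card ≤ D.card / (N + 1) := by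
      omega
    calc (N + 1) * (D.filter fun d => Bad (coset N a 0 ∪ coset N a 1) d).card
        ≤ (N + 1) * (D.card / (N + 1)) := Nat.mul_le_mul_left _ h2
      _ ≤ D.card := Nat.mul_div_le _ _

/-! ### A corollary -/

/-- The points `P`, `Q`, `R` are on a line. -/
def Col (P Q R : ℤ × ℤ) : Prop := (Q.1 - P.1) * (R.2 - P.2) = (Q.2 - P.2) * (R.1 - P.1)

open Classical in
/-- The points of the grid on the line through the different points `P` and `Q`. -/
noncomputable def onLine (N : ℕ) (P Q : ℤ × ℤ) : Finset (ℤ × ℤ) :=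
  (grid N).filter fun R => Col P Q R

/-- Numbers in `{0, …, N-1}` which are congruent modulo `h`. -/
theorem card_le_of_coord {N h : ℕ} (hh : 0 < h) (hN : 0 < N) (L : Finset (ℤ × ℤ))
    (π : ℤ × ℤ → ℤ) (h0 : ∀ R ∈ L, 0 ≤ π R ∧ π R < N)
    (hm : ∀ R ∈ L, ∀ R' ∈ L, (h : ℤ) ∣ π R - π R')
    (hi : ∀ R ∈ L, ∀ R' ∈ L, π R = π R' → R = R') :
    L.card ≤ (N - 1) / h + 1 := by
  classical
  have hhZ : (0 : ℤ) < h := by exact_mod_cast hh
  have h1 : (L.image fun R => (π R / h).toNat) ⊆ Finset.range ((N - 1) / h + 1) := by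
    intro x hx
    obtain ⟨R, hR, rfl⟩ := Finset.mem_image.1 hx
    obtain ⟨h2, h3⟩ := h0 R hR
    rw [Finset.mem_range, Nat.lt_succ_iff]
    have h4 : π R / h ≤ ((N - 1 : ℕ) : ℤ) / h := by
      apply Int.ediv_le_ediv hhZ
      omega
    have h5 : ((N - 1 : ℕ) : ℤ) / h = (((N - 1) / h : ℕ) : ℤ) := by
      exact (Int.natCast_div _ _).symm
    rw [h5] at h4
    exact Int.toNat_le.2 h4
  have h2 : (L.image fun R => (π R / h).toNat).card = L.card := by
    apply Finset.card_image_of_injOn
    intro R hR R' hR' hRR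
    have hR1 := Finset.mem_coe.1 hR
    have hR2 := Finset.mem_coe.1 hR'
    apply hi R hR1 R' hR2
    simp only at hRR
    have e1 : 0 ≤ π R / h := Int.ediv_nonneg (h0 R hR1).1 hhZ.le
    have e2 : 0 ≤ π R' / h := Int.ediv_nonneg (h0 R' hR2).1 hhZ.le
    have e3 : π R / h = π R' / h := by
      rw [← Int.toNat_of_nonneg e1, ← Int.toNat_of_nonneg e2, hRR]
    have e4 : π R % h = π R' % h := by
      have h6 : π R' ≡ π R [ZMOD (h : ℤ)] := (Int.modEq_iff_dvd).2 (hm R hR1 R' hR2)
      exact h6.symm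
    rw [← Int.mul_ediv_add_emod (π R) h, ← Int.mul_ediv_add_emod (π R') h, e3, e4]
  rw [← h2]
  calc _ ≤ (Finset.range ((N - 1) / h + 1)).card := Finset.card_le_card h1
    _ = _ := Finset.card_range _


open Classical in
/-- A line whose primitive direction has a coordinate of absolute value at least `H + 1`. -/
theorem line_card {N : ℕ} (hN : 0 < N) {H : ℕ} {P Q : ℤ × ℤ} {g u v : ℤ} (hg : 0 < g)
    (hu : Q.1 - P.1 = g * u) (hv : Q.2 - P.2 = g * v) (huv : IsCoprime u v)
    (hH : ¬ (|u| ≤ H ∧ |v| ≤ H)) :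
    ((onLine N P Q).card - 1) * (H + 1) ≤ N - 1 := by
  have hpt : ∀ R ∈ onLine N P Q, ∃ t : ℤ, R.1 = P.1 + t * u ∧ R.2 = P.2 + t * v := by
    intro R hR
    have hcol : Col P Q R := (Finset.mem_filter.1 hR).2
    unfold Col at hcol
    rw [hu, hv] at hcol
    have h1 : u * (R.2 - P.2) = v * (R.1 - P.1) := by
      have : g * (u * (R.2 - P.2)) = g * (v * (R.1 - P.1)) := by
        rw [← mul_assoc, ← mul_assoc]; exact hcol
      exact mul_left_cancel₀ hg.ne' this
    obtain ⟨x, y, hxy⟩ := huv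
    refine ⟨x * (R.1 - P.1) + y * (R.2 - P.2), ?_, ?_⟩
    · linear_combination (-(R.1 - P.1)) * hxy - y * h1
    · linear_combination (-(R.2 - P.2)) * hxy + x * h1
  have hkey : ∃ h : ℕ, H + 1 ≤ h ∧ (onLine N P Q).card ≤ (N - 1) / h + 1 := by
    by_cases hu1 : |u| ≤ H
    · have hv1 : ¬ |v| ≤ H := fun h => hH ⟨hu1, h⟩
      have hvne : v ≠ 0 := by
        rintro rfl
        apply hv1
        simp
      have hvabs : H + 1 ≤ v.natAbs := by
        rw [Int.abs_eq_natAbs] at hv1
        omega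
      refine ⟨v.natAbs, hvabs, card_le_of_coord (by omega) hN _ (fun R => R.2) ?_ ?_ ?_⟩
      · intro R hR
        exact (mem_grid.1 (Finset.mem_filter.1 hR).1).2
      · intro R hR R' hR'
        obtain ⟨t, -, h2⟩ := hpt R hR
        obtain ⟨t', -, h2'⟩ := hpt R' hR'
        rw [Int.natAbs_dvd]
        exact ⟨t - t', by rw [h2, h2']; ring⟩
      · intro R hR R' hR' hRR
        obtain ⟨t, h1, h2⟩ := hpt R hR
        obtain ⟨t', h1', h2'⟩ := hpt R' hR'
        have h3 : t * v = t' * v := by linarith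
        have h4 : t = t' := mul_right_cancel₀ hvne h3
        exact Prod.ext (by rw [h1, h1', h4]) (by rw [h2, h2', h4])
    · have hune : u ≠ 0 := by
        rintro rfl
        apply hu1
        simp
      have huabs : H + 1 ≤ u.natAbs := by
        rw [Int.abs_eq_natAbs] at hu1
        omega
      refine ⟨u.natAbs, huabs, card_le_of_coord (by omega) hN _ (fun R => R.1) ?_ ?_ ?_⟩
      · intro R hR
        exact (mem_grid.1 (Finset.mem_filter.1 hR).1).1
      · intro R hR R' hR'
        obtain ⟨t, h1, -⟩ := hpt R hR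
        obtain ⟨t', h1', -⟩ := hpt R' hR'
        rw [Int.natAbs_dvd]
        exact ⟨t - t', by rw [h1, h1']; ring⟩
      · intro R hR R' hR' hRR
        obtain ⟨t, h1, h2⟩ := hpt R hR
        obtain ⟨t', h1', h2'⟩ := hpt R' hR'
        have h3 : t * u = t' * u := by linarith
        have h4 : t = t' := mul_right_cancel₀ hune h3
        exact Prod.ext (by rw [h1, h1', h4]) (by rw [h2, h2', h4])
  obtain ⟨h, hhH, hcard⟩ := hkey
  have h1 : (onLine N P Q).card - 1 ≤ (N - 1) / h := by
    generalize (N - 1) / h = D at hcard ⊢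
    omega
  calc ((onLine N P Q).card - 1) * (H + 1) ≤ (N - 1) / h * h := Nat.mul_le_mul h1 hhH
    _ ≤ N - 1 := Nat.div_mul_le_self _ _

open Classical in
/-- **Rich lines do not suffice.** For every prime `N` there are `2N` points of the `N × N` grid such
that every line with three of them contains fewer than `√(2N) + 1` points of the grid. -/
theorem rich_lines (N : ℕ) (hN : N.Prime) :
    ∃ S : Finset (ℤ × ℤ), S ⊆ grid N ∧ S.card = 2 * N ∧
      ∀ P ∈ S, ∀ Q ∈ S, ∀ R ∈ S, P ≠ Q → P ≠ R → Q ≠ R → Col P Q R →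
        ((onLine N P Q).card : ℝ) < Real.sqrt (2 * N) + 1 := by
  set H : ℕ := Nat.findGreatest (fun H => 2 * H ^ 2 + H < N) N with hHdef
  have hH : 2 * H ^ 2 + H < N :=
    Nat.findGreatest_spec (P := fun H => 2 * H ^ 2 + H < N) (Nat.zero_le N)
      (by simpa using hN.pos)
  have hH1 : N ≤ 2 * (H + 1) ^ 2 + (H + 1) := by
    by_contra hcon
    push Not at hcon
    have h1 : H + 1 ≤ N := by nlinarith
    exact Nat.findGreatest_is_greatest (P := fun H => 2 * H ^ 2 + H < N)
      (Nat.lt_succ_self H) h1 hcon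
  set D : Finset (ℤ × ℤ) := insert ((0 : ℤ), (1 : ℤ))
    (Finset.Icc (1 : ℤ) (H : ℤ) ×ˢ Finset.Icc (-(H : ℤ)) (H : ℤ)) with hDdef
  have hDc : D.card ≤ N := by
    refine (Finset.card_insert_le _ _).trans ?_
    rw [Finset.card_product, Int.card_Icc, Int.card_Icc]
    have h1 : ((H : ℤ) + 1 - 1).toNat = H := by omega
    have h2 : ((H : ℤ) + 1 - -(H : ℤ)).toNat = 2 * H + 1 := by omega
    rw [h1, h2]
    nlinarith
  have hD0 : ∀ d ∈ D, d ≠ 0 := by
    intro d hd h0
    rw [h0] at hd
    rcases Finset.mem_insert.1 hd with h | h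
    · have := congrArg Prod.snd h
      simp at this
    · have := (Finset.mem_Icc.1 (Finset.mem_product.1 h).1).1
      simp at this
  obtain ⟨S, hS, hSc, hbad⟩ := result N hN D hD0
  have hb0 : (D.filter fun d => Bad S d).card = 0 := by
    by_contra hcon
    have h1 : 1 ≤ (D.filter fun d => Bad S d).card := Nat.one_le_iff_ne_zero.2 hcon
    have h2 : (N + 1) * 1 ≤ (N + 1) * (D.filter fun d => Bad S d).card :=
      Nat.mul_le_mul_left _ h1
    omega
  have hnb : ∀ d ∈ D, ¬ Bad S d := by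
    intro d hd hB
    have h1 := Finset.card_eq_zero.1 hb0
    have h2 : d ∈ D.filter fun d => Bad S d := Finset.mem_filter.2 ⟨hd, hB⟩
    rw [h1] at h2
    exact absurd h2 (Finset.notMem_empty _)
  refine ⟨S, hS, hSc, fun P hP Q hQ R hR hPQ hPR hQR hcol => ?_⟩
  have hd : (Q.1 - P.1, Q.2 - P.2) ≠ (0 : ℤ × ℤ) := by
    intro h0
    have h1 := congrArg Prod.fst h0
    have h2 := congrArg Prod.snd h0
    simp only [Prod.fst_zero, Prod.snd_zero] at h1 h2
    exact hPQ (Prod.ext (by omega) (by omega))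
  obtain ⟨g, u, v, hg, hu, hv, huv⟩ := exists_prim hd
  simp only at hu hv
  have hbd : ∀ s : ℤ, s ≠ 0 → Bad S (s * u, s * v) := by
    intro s hs
    refine ⟨P, hP, Q, hQ, R, hR, hPQ, hPR, hQR, ?_, ?_⟩
    · change s * u * (Q.2 - P.2) = s * v * (Q.1 - P.1)
      rw [hu, hv]; ring
    · change s * u * (R.2 - P.2) = s * v * (R.1 - P.1)
      have h1 : g * (u * (R.2 - P.2)) = g * (v * (R.1 - P.1)) := by
        have h2 := hcol
        unfold Col at h2
        rw [hu, hv] at h2
        linarith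
      have h2 := mul_left_cancel₀ hg.ne' h1
      rw [mul_assoc, mul_assoc, h2]
  have hfar : ¬ (|u| ≤ H ∧ |v| ≤ H) := by
    rintro ⟨h1, h2⟩
    rw [abs_le] at h1 h2
    rcases lt_trichotomy u 0 with h | h | h
    · refine hnb (-1 * u, -1 * v) ?_ (hbd (-1) (by norm_num))
      refine Finset.mem_insert_of_mem (Finset.mem_product.2 ⟨Finset.mem_Icc.2 ?_,
        Finset.mem_Icc.2 ?_⟩)
      · constructor <;> simp only <;> omega
      · constructor <;> simp only <;> omega
    · have h3 : IsUnit v := by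
        rw [h] at huv
        exact isCoprime_zero_left.1 huv
      have h4 : v = 1 ∨ v = -1 := Int.isUnit_iff.1 h3
      have h5 : v * v = 1 := by rcases h4 with h4 | h4 <;> rw [h4] <;> norm_num
      have hv0 : v ≠ 0 := by
        rintro rfl
        simp at h5
      refine hnb (v * u, v * v) ?_ (hbd v hv0)
      rw [h, h5, mul_zero]
      exact Finset.mem_insert_self _ _
    · refine hnb (1 * u, 1 * v) ?_ (hbd 1 (by norm_num))
      refine Finset.mem_insert_of_mem (Finset.mem_product.2 ⟨Finset.mem_Icc.2 ?_,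
        Finset.mem_Icc.2 ?_⟩)
      · constructor <;> simp only <;> omega
      · constructor <;> simp only <;> omega
  have hc := line_card hN.pos hg hu hv huv hfar
  have hNpos : 0 < N := hN.pos
  generalize (onLine N P Q).card = c at hc
  rcases Nat.eq_zero_or_pos c with rfl | hcpos
  · have := Real.sqrt_nonneg (2 * (N : ℝ))
    push_cast
    linarith
  · obtain ⟨k, rfl⟩ : ∃ k, c = k + 1 := ⟨c - 1, by omega⟩
    rw [Nat.add_sub_cancel] at hc
    have h1 : k ≤ 2 * (H + 1) := by
      by_contra hcon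
      push Not at hcon
      have h2 : (2 * (H + 1) + 1) * (H + 1) ≤ k * (H + 1) := Nat.mul_le_mul_right _ hcon
      have h3 : (2 * (H + 1) + 1) * (H + 1) = 2 * (H + 1) ^ 2 + (H + 1) := by ring
      omega
    have h4 : k ^ 2 < 2 * N := by
      calc k ^ 2 = k * k := by ring
        _ ≤ 2 * (H + 1) * k := Nat.mul_le_mul_right _ h1
        _ = 2 * (k * (H + 1)) := by ring
        _ ≤ 2 * (N - 1) := Nat.mul_le_mul_left _ hc
        _ < 2 * N := by omega
    have h5 : ((k : ℝ)) ^ 2 < 2 * N := by exact_mod_cast h4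
    have h6 : (k : ℝ) < Real.sqrt (2 * N) := Real.lt_sqrt_of_sq_lt h5
    push_cast
    linarith

end Pool.Agent.Results.MP_10249b_co.FewDirections
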